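import Mathlib

/-!
# Bezout's bound for plane curves over a field (after the library module NH8.UA)
-/

set_option autoImplicit false

open MvPolynomial

namespace Pool.Agent.H861.KF

variable {L : Type} [Field L]

/-- polynomials of degree at most `D` -/
noncomputable abbrev Pl (L : Type) [Field L] (D : ℕ) : Submodule L (MvPolynomial (Fin 2) L) := restrictTotalDegree (Fin 2) L D

lemma card_tri (D : ℕ) : 2 * ((Finset.range (D + 1)).biUnion fun s => Finset.HasAntidiagonal.antidiagonal s).card =
    (D + 1) * (D + 2) := by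
  rw [Finset.card_biUnion]
  · simp only [Finset.Nat.card_antidiagonal]
    induction D with
    | zero => simp
    | succ D ih => rw [Finset.sum_range_succ, mul_add, ih]; ring
  · intro a _ b _ hab
    show Disjoint (Finset.HasAntidiagonal.antidiagonal a) (Finset.HasAntidiagonal.antidiagonal b)
    rw [Finset.disjoint_left]
    intro x hx hx2
    rw [Finset.HasAntidiagonal.mem_antidiagonal] at hx hx2
    exact hab (hx.symm.trans hx2)

lemma finrank_Pl (L : Type) [Field L] (D : ℕ) : 2 * Module.finrank L (Pl L D) = (D + 1) * (D + 2) := by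
  have h1 : Module.finrank L (Pl L D) =
      Nat.card {n : Fin 2 →₀ ℕ | (n.sum fun _ e => e) ≤ D} := by
    exact Module.finrank_eq_nat_card_basis
      (basisRestrictSupport L {n : Fin 2 →₀ ℕ | (n.sum fun _ e => e) ≤ D})
  rw [h1, ← card_tri]
  congr 1
  have h2 : {n : Fin 2 →₀ ℕ | (n.sum fun _ e => e) ≤ D} =
      (fun p : ℕ × ℕ => Finsupp.equivFunOnFinite.symm ![p.1, p.2]) ''
        (((Finset.range (D + 1)).biUnion fun s => Finset.HasAntidiagonal.antidiagonal s : Finset (ℕ × ℕ)) : Set (ℕ × ℕ)) := by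
    ext n
    simp only [Set.mem_ofPred_eq, Set.mem_image, Finset.coe_biUnion, Finset.mem_coe, Finset.mem_range,
      Set.mem_iUnion, Finset.HasAntidiagonal.mem_antidiagonal, exists_prop]
    have hs : (n.sum fun _ e => e) = n 0 + n 1 := by
      rw [Finsupp.sum_fintype _ _ (fun _ => rfl), Fin.sum_univ_two]
    rw [hs]
    constructor
    · intro h
      refine ⟨(n 0, n 1), ⟨n 0 + n 1, by omega, rfl⟩, ?_⟩
      ext i
      fin_cases i <;> simp
    · rintro ⟨p, ⟨s, hs1, hs2⟩, rfl⟩
      show p.1 + p.2 ≤ D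
      omega
  rw [Nat.card_coe_set_eq, h2, Set.ncard_image_of_injective, Set.ncard_coe_finset]
  intro p q h
  have h0 := DFunLike.congr_fun h 0
  have h1 := DFunLike.congr_fun h 1
  simp at h0 h1
  exact Prod.ext h0 h1

/-- separating polynomial -/
lemma exists_sep (Z : Finset (Fin 2 → L)) (z : Fin 2 → L) :
    ∃ A : MvPolynomial (Fin 2) L, A.totalDegree ≤ Z.card ∧ eval z A ≠ 0 ∧
      ∀ w ∈ Z, w ≠ z → eval w A = 0 := by
  classical
  have h1 : ∀ w : Fin 2 → L, ∃ i : Fin 2, w ≠ z → w i ≠ z i := by
    intro w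
    by_cases h : w = z
    · exact ⟨0, fun h' => absurd h h'⟩
    · obtain ⟨i, hi⟩ := Function.ne_iff.1 h
      exact ⟨i, fun _ => hi⟩
  choose i hi using h1
  refine ⟨∏ w ∈ Z.erase z, (X (i w) - C (w (i w))), ?_, ?_, ?_⟩
  · refine (totalDegree_finsetProd _ _).trans ?_
    calc ∑ w ∈ Z.erase z, (X (i w) - C (w (i w)) : MvPolynomial (Fin 2) L).totalDegree
        ≤ ∑ w ∈ Z.erase z, 1 := by
          apply Finset.sum_le_sum
          intro w _
          refine (totalDegree_sub _ _).trans ?_
          simp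
      _ ≤ Z.card := by
          rw [Finset.sum_const, smul_eq_mul, mul_one]
          exact Finset.card_erase_le
  · rw [map_prod, Finset.prod_ne_zero_iff]
    intro w hw
    simp only [map_sub, eval_X, eval_C]
    exact sub_ne_zero.2 (Ne.symm (hi w (Finset.ne_of_mem_erase hw)))
  · intro w hw hwz
    rw [map_prod]
    apply Finset.prod_eq_zero (Finset.mem_erase.2 ⟨hwz, hw⟩)
    simp

/-- Bezout's bound -/
lemma bezout (P Q : MvPolynomial (Fin 2) L) (hQ : Q ≠ 0) (hrel : IsRelPrime P Q)
    (Z : Finset (Fin 2 → L)) (hZ : ∀ z ∈ Z, eval z P = 0 ∧ eval z Q = 0) :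
    Z.card ≤ P.totalDegree * Q.totalDegree := by
  classical
  set a := P.totalDegree with ha
  set b := Q.totalDegree with hb
  set m := Z.card with hm
  -- multiplication map
  let V := (Pl L (m + b)) × (Pl L (m + a))
  let M : V →ₗ[L] MvPolynomial (Fin 2) L :=
    LinearMap.coprod ((LinearMap.mulRight L P).comp (Pl L (m + b)).subtype)
      ((LinearMap.mulRight L Q).comp (Pl L (m + a)).subtype)
  have hM : ∀ x : V, M x = x.1.1 * P + x.2.1 * Q := fun x => rfl
  let Rn := Pl L (m + a + b)
  let M' : V →ₗ[L] Rn := LinearMap.codRestrict Rn M (by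
    intro x
    rw [hM]
    apply Submodule.add_mem
    · have h1 : (x.1.1).totalDegree ≤ m + b := (mem_restrictTotalDegree _ _ _).1 x.1.2
      refine (mem_restrictTotalDegree _ _ _).2 ?_
      have := totalDegree_mul x.1.1 P
      omega
    · have h1 : (x.2.1).totalDegree ≤ m + a := (mem_restrictTotalDegree _ _ _).1 x.2.2
      refine (mem_restrictTotalDegree _ _ _).2 ?_
      have := totalDegree_mul x.2.1 Q
      omega)
  have hM' : ∀ x : V, (M' x : MvPolynomial (Fin 2) L) = x.1.1 * P + x.2.1 * Q := fun x => hM x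
  -- evaluation
  let Φ : Rn →ₗ[L] (Z → L) :=
    (LinearMap.pi fun z : Z => (aeval (z : Fin 2 → L) : MvPolynomial (Fin 2) L →ₐ[L] L).toLinearMap).comp Rn.subtype
  have hΦ : ∀ (A : Rn) (z : Z), Φ A z = eval (z : Fin 2 → L) A.1 := by
    intro A z
    show aeval (z : Fin 2 → L) A.1 = _
    rw [aeval_eq_eval]
  have hΦs : Function.Surjective Φ := by
    intro c
    have h1 : ∀ z : Z, ∃ A : Rn, Φ A = Pi.single z (c z) := by
      intro z
      obtain ⟨A, hA1, hA2, hA3⟩ := exists_sep Z z
      refine ⟨⟨C (c z / eval (z : Fin 2 → L) A) * A, ?_⟩, ?_⟩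
      · refine (mem_restrictTotalDegree _ _ _).2 ?_
        have := totalDegree_mul (C (c z / eval (z : Fin 2 → L) A)) A
        rw [totalDegree_C] at this
        omega
      · ext w
        rw [hΦ]
        simp only [map_mul, eval_C]
        by_cases h : w = z
        · subst h
          rw [Pi.single_eq_same]
          field_simp
        · rw [Pi.single_eq_of_ne h, hA3 w w.2 (fun h' => h (Subtype.ext h')), mul_zero]
    choose A hA using h1
    refine ⟨∑ z, A z, ?_⟩
    rw [map_sum]
    simp only [hA]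
    exact Finset.univ_sum_single c
  -- kernel of M'
  let K : Pl L m →ₗ[L] V := LinearMap.prod
    (LinearMap.codRestrict (Pl L (m + b)) ((LinearMap.mulRight L Q).comp (Pl L m).subtype) (by
      intro x
      have h1 : (x.1).totalDegree ≤ m := (mem_restrictTotalDegree _ _ _).1 x.2
      refine (mem_restrictTotalDegree _ _ _).2 ?_
      have := totalDegree_mul x.1 Q
      show (x.1 * Q).totalDegree ≤ m + b
      omega))
    (LinearMap.codRestrict (Pl L (m + a)) (-((LinearMap.mulRight L P).comp (Pl L m).subtype)) (by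
      intro x
      have h1 : (x.1).totalDegree ≤ m := (mem_restrictTotalDegree _ _ _).1 x.2
      refine (mem_restrictTotalDegree _ _ _).2 ?_
      have := totalDegree_mul x.1 P
      show (-(x.1 * P)).totalDegree ≤ m + a
      rw [totalDegree_neg]
      omega))
  have hkerM : LinearMap.ker M' ≤ LinearMap.range K := by
    intro x hx
    rw [LinearMap.mem_ker] at hx
    have h1 : x.1.1 * P + x.2.1 * Q = 0 := by
      rw [← hM', hx]; rfl
    have h2 : Q ∣ x.1.1 * P := by
      have : x.1.1 * P = -x.2.1 * Q := by linear_combination h1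
      rw [this]; exact Dvd.intro_left _ rfl
    have h3 : Q ∣ x.1.1 := (hrel.symm).dvd_of_dvd_mul_right h2
    obtain ⟨H, hH⟩ := h3
    have h4 : x.2.1 = - (H * P) := by
      have e1 : Q * (H * P + x.2.1) = 0 := by
        rw [hH] at h1
        linear_combination h1
      rcases mul_eq_zero.1 e1 with h | h
      · exact absurd h hQ
      · linear_combination h
    have h5 : H.totalDegree ≤ m := by
      by_cases hH0 : H = 0
      · rw [hH0]; simp
      · have hx1 : (x.1.1).totalDegree ≤ m + b := (mem_restrictTotalDegree _ _ _).1 x.1.2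
        rw [hH, totalDegree_mul_of_isDomain hQ hH0] at hx1
        omega
    refine ⟨⟨H, (mem_restrictTotalDegree _ _ _).2 h5⟩, ?_⟩
    apply Prod.ext
    · apply Subtype.ext
      show H * Q = x.1.1
      rw [hH, mul_comm]
    · apply Subtype.ext
      show -(H * P) = x.2.1
      rw [h4]
  -- dimension count
  have d1 : Module.finrank L (LinearMap.ker M') ≤ Module.finrank L (Pl L m) :=
    (Submodule.finrank_mono hkerM).trans (LinearMap.finrank_range_le K)
  have d2 := LinearMap.finrank_range_add_finrank_ker M'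
  have d3 := LinearMap.finrank_range_add_finrank_ker Φ
  have d4 : Module.finrank L (LinearMap.range Φ) = m := by
    rw [LinearMap.range_eq_top.2 hΦs, finrank_top, Module.finrank_fintype_fun_eq_card, Fintype.card_coe]
  have d5 : LinearMap.range M' ≤ LinearMap.ker Φ := by
    rintro _ ⟨x, rfl⟩
    rw [LinearMap.mem_ker]
    ext z
    rw [hΦ, hM']
    obtain ⟨h1, h2⟩ := hZ z z.2
    simp [h1, h2]
  have d6 := Submodule.finrank_mono d5
  have d7 : Module.finrank L V = Module.finrank L (Pl L (m + b)) + Module.finrank L (Pl L (m + a)) :=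
    Module.finrank_prod
  rw [d7] at d2
  have f1 := finrank_Pl L m
  have f2 := finrank_Pl L (m + a)
  have f3 := finrank_Pl L (m + b)
  have f4 : 2 * Module.finrank L Rn = _ := finrank_Pl L (m + a + b)
  nlinarith

/-- an irreducible polynomial divides each polynomial with many common zeros -/
theorem dvd_of_zeros {F G : MvPolynomial (Fin 2) L} (hF : Irreducible F) {e : ℕ}
    (hFe : F.totalDegree = e) (hG : G.totalDegree ≤ e) (Z : Finset (Fin 2 → L))
    (hZ : ∀ z ∈ Z, eval z F = 0 ∧ eval z G = 0) (hc : e ^ 2 < Z.card) : F ∣ G := by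
  by_contra h
  have hrel : IsRelPrime F G := (Irreducible.isRelPrime_iff_not_dvd hF).2 h
  have hG0 : G ≠ 0 := fun h0 => h (h0 ▸ dvd_zero F)
  have h1 := bezout F G hG0 hrel Z hZ
  rw [hFe] at h1
  have h2 : e * G.totalDegree ≤ e * e := Nat.mul_le_mul_left _ hG
  have h3 : e ^ 2 = e * e := sq e
  omega

/-- a multiple of the same degree is a scalar multiple -/
theorem eq_smul {F G : MvPolynomial (Fin 2) L} (hG0 : G ≠ 0) (hF : F ≠ 0)
    (hd : G.totalDegree ≤ F.totalDegree) (h : F ∣ G) : ∃ k : L, k ≠ 0 ∧ G = C k * F := by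
  obtain ⟨H, rfl⟩ := h
  have hH : H ≠ 0 := fun h => hG0 (by rw [h, mul_zero])
  rw [totalDegree_mul_of_isDomain hF hH] at hd
  have h1 : H.totalDegree = 0 := by omega
  rw [totalDegree_eq_zero_iff_eq_C] at h1
  refine ⟨H.coeff 0, ?_, ?_⟩
  · intro h
    rw [h, map_zero] at h1
    exact hH h1
  · rw [← h1, mul_comm]

/-- the two lemmas together, for arbitrary `G` -/
theorem smul_of_zeros {F G : MvPolynomial (Fin 2) L} (hF : Irreducible F) {e : ℕ}
    (hFe : F.totalDegree = e) (hG : G.totalDegree ≤ e) (Z : Finset (Fin 2 → L))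
    (hZ : ∀ z ∈ Z, eval z F = 0 ∧ eval z G = 0) (hc : e ^ 2 < Z.card) : ∃ k : L, G = C k * F := by
  by_cases hG0 : G = 0
  · exact ⟨0, by rw [hG0, map_zero, zero_mul]⟩
  · obtain ⟨k, _, hk⟩ := eq_smul hG0 hF.ne_zero (hFe ▸ hG) (dvd_of_zeros hF hFe hG Z hZ hc)
    exact ⟨k, hk⟩

end Pool.Agent.H861.KF
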