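import Mathlib

/-!
# Sums of powers of polynomials (theorem of Newman and Slater)
-/

set_option autoImplicit false

open Polynomial Finset

namespace Pool.Agent.H861.KF

variable {k : Type} [Field k] [CharZero k]

lemma ratio_const (f g : k[X]) (hg : g ≠ 0) (h : g * derivative f = f * derivative g) :
    ∃ c : k, f = C c * g := by
  classical
  set d := EuclideanDomain.gcd f g with hd
  have hd0 : d ≠ 0 := by
    intro h0
    exact hg (EuclideanDomain.gcd_eq_zero_iff.1 h0).2
  obtain ⟨f1, hf1⟩ := EuclideanDomain.gcd_dvd_left f g
  obtain ⟨g1, hg1⟩ := EuclideanDomain.gcd_dvd_right f g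
  rw [← hd] at hf1 hg1
  have hcop : IsCoprime f1 g1 := by
    obtain ⟨a, b, hab⟩ : ∃ a b, d = f * a + g * b :=
      ⟨_, _, EuclideanDomain.gcd_eq_gcd_ab f g⟩
    refine ⟨a, b, ?_⟩
    have : d * (a * f1 + b * g1) = d * 1 := by
      rw [mul_one]
      calc d * (a * f1 + b * g1) = (d * f1) * a + (d * g1) * b := by ring
        _ = f * a + g * b := by rw [← hf1, ← hg1]
        _ = d := hab.symm
    exact mul_left_cancel₀ hd0 this
  have hw : wronskian f1 g1 = 0 := by
    have h2 : d ^ 2 * wronskian f1 g1 = 0 := by
      have h3 : f * derivative g - derivative f * g = 0 := by rw [← h]; ring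
      rw [hf1, hg1] at h3
      simp only [derivative_mul] at h3
      unfold wronskian
      linear_combination h3
    rcases mul_eq_zero.1 h2 with h3 | h3
    · exact absurd (pow_eq_zero_iff (two_ne_zero)|>.1 h3) hd0
    · exact h3
  have hw2 := (IsCoprime.wronskian_eq_zero_iff hcop).1 hw
  have hf2 := Polynomial.derivative_eq_zero.mp hw2.1
  have hg2 := Polynomial.derivative_eq_zero.mp hw2.2
  rw [natDegree_eq_zero] at hf2 hg2
  obtain ⟨x, hx⟩ := hf2
  obtain ⟨y, hy⟩ := hg2
  have hy0 : y ≠ 0 := by
    rintro rfl
    apply hg
    rw [hg1, ← hy]; simp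
  refine ⟨x / y, ?_⟩
  rw [hf1, hg1, ← hx, ← hy]
  have : C (x / y) * C y = (C x : k[X]) := by
    rw [← C_mul, div_mul_cancel₀ _ hy0]
  rw [← this]; ring

open Classical in
lemma dep_of_rel {r : ℕ} (f : Fin r → k[X]) : ∀ s : ℕ, ∀ v : Fin r → k[X], v ≠ 0 →
    (univ.filter (fun j => v j ≠ 0)).card ≤ s →
    (∀ i < s, ∑ j, v j * derivative^[i] (f j) = 0) → ¬ LinearIndependent k f := by
  intro s
  induction s with
  | zero =>
    intro v hv hcard _
    exfalso
    apply hv
    have h0 : (univ.filter (fun j => v j ≠ 0)) = ∅ := Finset.card_eq_zero.1 (Nat.le_zero.1 hcard)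
    funext j
    by_contra hj
    have : j ∈ (univ.filter (fun j => v j ≠ 0)) := by
      rw [Finset.mem_filter]; exact ⟨Finset.mem_univ _, hj⟩
    rw [h0] at this
    exact absurd this (Finset.notMem_empty _)
  | succ s ih =>
    intro v hv hcard hrel
    obtain ⟨j0, hj0⟩ : ∃ j0, v j0 ≠ 0 := by
      by_contra hcon
      push Not at hcon
      exact hv (funext hcon)
    set v' : Fin r → k[X] := fun j => v j0 * derivative (v j) - v j * derivative (v j0) with hv'
    by_cases hz : v' = 0
    · have h1 : ∀ j, ∃ c : k, v j = C c * v j0 := by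
        intro j
        apply ratio_const _ _ hj0
        have := congrFun hz j
        simp only [hv', Pi.zero_apply] at this
        linear_combination this
      choose c hc using h1
      have hc0 : c j0 = 1 := by
        have := hc j0
        have h2 : (C (c j0) - 1) * v j0 = 0 := by linear_combination -this
        rcases mul_eq_zero.1 h2 with h3 | h3
        · have h4 : C (c j0) = (C 1 : k[X]) := by rw [C_1]; linear_combination h3
          exact C_injective h4
        · exact absurd h3 hj0
      intro hli
      rw [Fintype.linearIndependent_iff] at hli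
      have h2 : ∑ j, c j • f j = 0 := by
        have h3 := hrel 0 (Nat.succ_pos s)
        simp only [Function.iterate_zero, id_eq] at h3
        have h4 : v j0 * ∑ j, c j • f j = 0 := by
          rw [← h3, Finset.mul_sum]
          apply Finset.sum_congr rfl
          intro j _
          conv_rhs => rw [hc j]
          rw [smul_eq_C_mul]; ring
        rcases mul_eq_zero.1 h4 with h5 | h5
        · exact absurd h5 hj0
        · exact h5
      have := hli c h2 j0
      rw [hc0] at this
      exact one_ne_zero this
    · apply ih v' hz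
      · have hsub : (univ.filter (fun j => v' j ≠ 0)) ⊆ (univ.filter (fun j => v j ≠ 0)).erase j0 := by
          intro j hj
          rw [Finset.mem_filter] at hj
          rw [Finset.mem_erase, Finset.mem_filter]
          refine ⟨?_, Finset.mem_univ _, ?_⟩
          · rintro rfl
            apply hj.2
            simp only [hv']; ring
          · intro h0
            apply hj.2
            simp only [hv', h0]; simp
        have h1 := Finset.card_le_card hsub
        rw [Finset.card_erase_of_mem (by rw [Finset.mem_filter]; exact ⟨Finset.mem_univ _, hj0⟩)] at h1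
        omega
      · intro i hi
        have e1 := hrel i (by omega)
        have e2 := hrel (i + 1) (by omega)
        have e3 : derivative (∑ j, v j * derivative^[i] (f j)) = 0 := by rw [e1, derivative_zero]
        rw [derivative_sum] at e3
        simp only [derivative_mul, Finset.sum_add_distrib] at e3
        have e4 : ∑ j, v j * derivative (derivative^[i] (f j)) = 0 := by
          rw [← e2]
          apply Finset.sum_congr rfl
          intro j _
          rw [Function.iterate_succ_apply']
        rw [e4, add_zero] at e3
        have e5 : ∑ j, v' j * derivative^[i] (f j)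
            = v j0 * ∑ j, derivative (v j) * derivative^[i] (f j)
              - derivative (v j0) * ∑ j, v j * derivative^[i] (f j) := by
          rw [Finset.mul_sum, Finset.mul_sum, ← Finset.sum_sub_distrib]
          apply Finset.sum_congr rfl
          intro j _
          simp only [hv']; ring
        rw [e5, e3, e1]; ring

/-- Wronskian matrix -/
noncomputable def wmat {R : Type*} [CommRing R] {r : ℕ} (f : Fin r → R[X]) :
    Matrix (Fin r) (Fin r) R[X] :=
  Matrix.of fun i j => derivative^[(i : ℕ)] (f j)

lemma wmat_det_ne_zero {r : ℕ} (f : Fin r → k[X]) (hf : LinearIndependent k f) :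
    (wmat f).det ≠ 0 := by
  classical
  intro h0
  obtain ⟨v, hv0, hv⟩ := Matrix.exists_mulVec_eq_zero_iff.2 h0
  refine dep_of_rel f r v hv0 ?_ ?_ hf
  · refine (Finset.card_le_univ _).trans ?_
    simp
  · intro i hi
    have := congrFun hv ⟨i, hi⟩
    simp only [Matrix.mulVec, dotProduct, wmat, Matrix.of_apply, Pi.zero_apply] at this
    rw [← this]
    apply Finset.sum_congr rfl
    intro j _
    ring

omit [CharZero k] in
lemma wmat_dvd {r : ℕ} (φ : Fin r → k[X]) (e : ℕ) :
    (∏ j, φ j ^ (e - (r - 1))) ∣ (wmat fun j => φ j ^ e).det := by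
  have h1 : ∀ i j : Fin r, ∃ u, derivative^[(i : ℕ)] (φ j ^ e) = φ j ^ (e - (r - 1)) * u := by
    intro i j
    have h2 := pow_sub_dvd_iterate_derivative_pow (φ j) e (i : ℕ)
    have h3 : φ j ^ (e - (r - 1)) ∣ φ j ^ (e - (i : ℕ)) := pow_dvd_pow _ (by have := i.2; omega)
    exact h3.trans h2
  choose u hu using h1
  have h2 : (wmat fun j => φ j ^ e) = Matrix.of fun i j => φ j ^ (e - (r - 1)) * u i j := by
    ext1 i j
    simp only [wmat, Matrix.of_apply]
    exact hu i j
  have h3 := Matrix.det_mul_row (fun j => φ j ^ (e - (r - 1))) (Matrix.of u)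
  simp only [Matrix.of_apply] at h3
  rw [h2, h3]
  exact dvd_mul_right _ _

omit [CharZero k] in
lemma wmat_degree {r : ℕ} (g : Fin r → k[X]) : (wmat g).det.natDegree ≤ ∑ j, (g j).natDegree := by
  rw [Matrix.det_apply]
  refine natDegree_sum_le_of_forall_le _ _ fun σ _ => ?_
  have h1 : (Equiv.Perm.sign σ • ∏ i, wmat g (σ i) i) = C ((Equiv.Perm.sign σ : ℤ) : k) *
      ∏ i, wmat g (σ i) i := by
    rw [Units.smul_def, zsmul_eq_mul]
    simp
  rw [h1]
  refine (natDegree_C_mul_le _ _).trans ((natDegree_prod_le _ _).trans (Finset.sum_le_sum fun j _ => ?_))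
  simp only [wmat, Matrix.of_apply]
  exact (natDegree_iterate_derivative _ _).trans (Nat.sub_le _ _)

omit [CharZero k] in
/-- exchange of one polynomial -/
lemma wmat_exchange {r : ℕ} (g : Fin r → k[X]) (h : k[X]) (c : Fin r → k) (i : Fin r)
    (hh : h = ∑ j, C (c j) * g j) :
    (wmat (Function.update g i h)).det = C (c i) * (wmat g).det := by
  rw [← smul_eq_mul, ← Matrix.det_updateCol_sum (wmat g) i (fun j => C (c j))]
  congr 1
  ext1 a b
  rw [Matrix.updateCol_apply]
  simp only [wmat, Matrix.of_apply]
  by_cases hb : b = i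
  · subst hb
    rw [Function.update_self, if_pos rfl, hh, iterate_derivative_sum]
    refine Finset.sum_congr rfl fun j _ => ?_
    rw [iterate_derivative_C_mul, smul_eq_mul]
  · rw [Function.update_of_ne hb, if_neg hb]

end Pool.Agent.H861.KF
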