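import Mathlib
import Pool.Agent.H861.KF.N

/-!
# Sums of powers of polynomials (theorem of Newman and Slater), continued
-/

set_option autoImplicit false

open Polynomial Finset

namespace Pool.Agent.H861.KF

variable {k : Type} [Field k] [CharZero k]

/-- The theorem of Newman and Slater: in a relation between `r + 1` powers without common divisor, of
which the last `r` are linearly independent, all polynomials are constant. -/
theorem newman_slater {r e : ℕ} (he : (r + 1) * (r - 1) < e) (f : Fin (r + 1) → k[X])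
    (hf : ∀ j, f j ≠ 0) (a : Fin (r + 1) → k) (ha : ∀ j, a j ≠ 0)
    (hsum : ∑ j, C (a j) * f j ^ e = 0) (hli : LinearIndependent k fun j : Fin r => f j.succ ^ e)
    (u : Fin (r + 1) → k[X]) (hu : ∑ j, u j * f j = 1) (j : Fin (r + 1)) : (f j).natDegree = 0 := by
  classical
  set W := (wmat fun j : Fin r => f j.succ ^ e).det with hW
  have hW0 : W ≠ 0 := wmat_det_ne_zero _ hli
  set E := e - (r - 1) with hE
  -- exchange
  have hex : ∀ i : Fin (r + 1), ∃ (φ : Fin r → k[X]) (c : k), c ≠ 0 ∧
      (wmat fun j => φ j ^ e).det = C c * W ∧ ∀ F : k[X] → k[X], (∏ j, F (φ j)) * F (f i) = ∏ j, F (f j) := by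
    intro i
    refine Fin.cases ?_ ?_ i
    · refine ⟨fun j => f j.succ, 1, one_ne_zero, by rw [C_1, one_mul], fun F => ?_⟩
      rw [Fin.prod_univ_succ (fun j => F (f j)), mul_comm]
    · intro i
      refine ⟨Function.update (fun j : Fin r => f j.succ) i (f 0), - a i.succ / a 0,
        div_ne_zero (neg_ne_zero.mpr (ha _)) (ha 0), ?_, fun F => ?_⟩
      · have h1 : (fun j => Function.update (fun j : Fin r => f j.succ) i (f 0) j ^ e) =
            Function.update (fun j : Fin r => f j.succ ^ e) i (f 0 ^ e) := by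
          funext j
          by_cases hj : j = i
          · subst hj; rw [Function.update_self, Function.update_self]
          · rw [Function.update_of_ne hj, Function.update_of_ne hj]
        rw [h1, wmat_exchange (fun j : Fin r => f j.succ ^ e) (f 0 ^ e) (fun j => - a j.succ / a 0) i]
        have h2 := hsum
        rw [Fin.sum_univ_succ] at h2
        have h3 : f 0 ^ e = C (1 / a 0) * (C (a 0) * f 0 ^ e) := by
          rw [← mul_assoc, ← C_mul, one_div_mul_cancel (ha 0), C_1, one_mul]
        rw [h3, eq_neg_of_add_eq_zero_left h2, mul_neg, Finset.mul_sum, ← Finset.sum_neg_distrib]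
        refine Finset.sum_congr rfl fun j _ => ?_
        rw [← mul_assoc, ← C_mul, ← neg_mul, ← C_neg]
        congr 2
        field_simp
      · rw [Finset.prod_eq_mul_prod_sdiff_singleton_of_mem (Finset.mem_univ i)
          (fun j => F (Function.update (fun j : Fin r => f j.succ) i (f 0) j)), Function.update_self,
          Fin.prod_univ_succ (fun j => F (f j)),
          Finset.prod_eq_mul_prod_sdiff_singleton_of_mem (Finset.mem_univ i) (fun j : Fin r => F (f j.succ))]
        have h4 : ∏ j ∈ univ \ {i}, F (Function.update (fun j : Fin r => f j.succ) i (f 0) j) =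
            ∏ j ∈ univ \ {i}, F (f j.succ) := by
          refine Finset.prod_congr rfl fun j hj => ?_
          rw [Finset.mem_sdiff, Finset.mem_singleton] at hj
          rw [Function.update_of_ne hj.2]
        rw [h4]
        ring
  -- divisibility
  have hdvd : ∀ i, (∏ j, f j ^ E) ∣ f i ^ E * W := by
    intro i
    obtain ⟨φ, c, hc, hφ, hF⟩ := hex i
    have h1 := wmat_dvd φ e
    rw [hφ] at h1
    have h2 : (∏ j, φ j ^ E) ∣ W := by
      obtain ⟨v, hv⟩ := h1
      refine ⟨C c⁻¹ * v, ?_⟩
      have : W = C c⁻¹ * (C c * W) := by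
        rw [← mul_assoc, ← C_mul, inv_mul_cancel₀ hc, C_1, one_mul]
      rw [this, hv]
      ring
    have h3 := hF (fun g => g ^ E)
    rw [← h3, mul_comm]
    exact mul_dvd_mul_left _ h2
  have hspan : ∃ v : Fin (r + 1) → k[X], ∑ j, v j * f j ^ E = 1 := by
    have h1 : Ideal.span (Set.range f) = ⊤ := by
      rw [Ideal.eq_top_iff_one, ← hu]
      exact Ideal.sum_mem _ fun j _ => Ideal.mul_mem_left _ _ (Ideal.subset_span ⟨j, rfl⟩)
    have h2 := Ideal.span_pow_eq_top _ h1 E
    rw [← Set.range_comp] at h2
    have h3 : (1 : k[X]) ∈ Ideal.span (Set.range ((fun x => x ^ E) ∘ f)) := by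
      rw [h2]; exact Submodule.mem_top
    rw [Ideal.mem_span_range_iff_exists_fun] at h3
    exact h3
  obtain ⟨v, hv⟩ := hspan
  have hP : (∏ j, f j ^ E) ∣ W := by
    have h1 : W = ∑ j, v j * (f j ^ E * W) := by
      calc W = (∑ j, v j * f j ^ E) * W := by rw [hv, one_mul]
        _ = _ := by rw [Finset.sum_mul]; exact Finset.sum_congr rfl fun j _ => by ring
    rw [h1]
    exact Finset.dvd_sum fun j _ => Dvd.dvd.mul_left (hdvd j) _
  -- degrees
  obtain ⟨i1, -, hi1⟩ := Finset.exists_max_image Finset.univ (fun j => (f j).natDegree) ⟨0, Finset.mem_univ _⟩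
  obtain ⟨φ, c, hc, hφ, hF⟩ := hex i1
  have h1 : (∏ j, f j ^ E).natDegree ≤ W.natDegree := natDegree_le_of_dvd hP hW0
  have h2 : W.natDegree ≤ ∑ j, (φ j ^ e).natDegree := by
    rw [← natDegree_C_mul hc, ← hφ]
    exact wmat_degree _
  have hφ0 : ∀ j, φ j ≠ 0 := by
    intro j hj
    have h3 := hF id
    simp only [id] at h3
    rw [Finset.prod_eq_zero (Finset.mem_univ j) hj, zero_mul] at h3
    exact Finset.prod_ne_zero_iff.mpr (fun j _ => hf j) h3.symm
  rw [natDegree_prod _ _ (fun j _ => pow_ne_zero _ (hf j))] at h1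
  simp only [natDegree_pow] at h1 h2
  have h4 : ∑ j, (φ j).natDegree + (f i1).natDegree = ∑ j, (f j).natDegree := by
    have h3 := congrArg natDegree (hF id)
    simp only [id] at h3
    rw [natDegree_mul (Finset.prod_ne_zero_iff.mpr fun j _ => hφ0 j) (hf i1),
      natDegree_prod _ _ (fun j _ => hφ0 j), natDegree_prod _ _ (fun j _ => hf j)] at h3
    exact h3
  rw [← Finset.mul_sum] at h1 h2
  have h5 : ∑ j, (f j).natDegree ≤ (r + 1) * (f i1).natDegree := by
    have := Finset.sum_le_card_nsmul Finset.univ (fun j => (f j).natDegree) (f i1).natDegree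
      (fun j hj => hi1 j hj)
    rw [Finset.card_univ, Fintype.card_fin, smul_eq_mul] at this
    exact this
  have h6 : (f i1).natDegree = 0 := by
    set S := ∑ j, (f j).natDegree with hS
    set d := (f i1).natDegree with hd
    have hle : E * S ≤ e * ∑ j, (φ j).natDegree := h1.trans h2
    have hEr : E + (r - 1) = e := by
      have : r - 1 ≤ (r + 1) * (r - 1) := Nat.le_mul_of_pos_left _ (Nat.succ_pos r)
      omega
    by_contra hd0
    have h7 : e * ∑ j, (φ j).natDegree + e * d = e * S := by rw [← mul_add, h4]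
    have h8 : E * S + (r - 1) * S = e * S := by rw [← add_mul, hEr]
    have h9 : e * d ≤ (r - 1) * S := by omega
    have h10 : (r - 1) * S ≤ (r - 1) * ((r + 1) * d) := Nat.mul_le_mul_left _ h5
    have h11 : (r - 1) * ((r + 1) * d) = ((r + 1) * (r - 1)) * d := by ring
    have h12 : ((r + 1) * (r - 1)) * d < e * d := Nat.mul_lt_mul_of_pos_right he (Nat.pos_of_ne_zero hd0)
    omega
  have := hi1 j (Finset.mem_univ j)
  omega

end Pool.Agent.H861.KF
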