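import Mathlib
import Pool.Agent.H861.KF.M

/-!
# Powers which are not proportional are linearly independent
-/

set_option autoImplicit false

open Polynomial Finset

namespace Pool.Agent.H861.KF

variable {k : Type} [Field k] [CharZero k]

/-- Pairwise non-proportional `e`-th powers of at most `q` polynomials are linearly independent, if
`e > q (q - 2)`. -/
theorem powers_indep {ι : Type} (q e : ℕ) (he : q * (q - 2) < e) (f : ι → k[X]) :
    ∀ (n : ℕ) (s : Finset ι), s.card = n → n ≤ q → (∀ i ∈ s, f i ≠ 0) →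
      (∀ i ∈ s, ∀ j ∈ s, i ≠ j → ∀ c : k, f i ^ e ≠ C c * f j ^ e) →
      ∀ a : ι → k, ∑ i ∈ s, C (a i) * f i ^ e = 0 → ∀ i ∈ s, a i = 0 := by
  classical
  intro n
  induction n with
  | zero =>
    intro s hs _ _ _ a _ i hi
    rw [Finset.card_eq_zero] at hs
    subst hs
    exact absurd hi (Finset.notMem_empty _)
  | succ n ih =>
    intro s hs hn hf hne a ha i0 hi0
    -- the smaller subsets
    have hsub : ∀ j ∈ s, ∀ b : ι → k, ∑ i ∈ s.erase j, C (b i) * f i ^ e = 0 → ∀ i ∈ s.erase j, b i = 0 := by
      intro j hj b hb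
      refine ih (s.erase j) (by rw [Finset.card_erase_of_mem hj, hs]; rfl) (by omega)
        (fun i hi => hf i (Finset.mem_of_mem_erase hi)) (fun i hi i' hi' => hne i (Finset.mem_of_mem_erase hi) i'
          (Finset.mem_of_mem_erase hi')) b hb
    by_contra hai
    have hall : ∀ j ∈ s, a j ≠ 0 := by
      intro j hj h0
      by_cases hji : i0 = j
      · subst hji; exact hai h0
      · apply hai
        refine hsub j hj a ?_ i0 (Finset.mem_erase.mpr ⟨hji, hi0⟩)
        rw [← Finset.add_sum_erase _ _ hj, h0, C_0, zero_mul, zero_add] at ha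
        exact ha
    -- indexing
    obtain ⟨σ⟩ : Nonempty (Fin (n + 1) ≃ s) := ⟨(Fintype.equivOfCardEq (by rw [Fintype.card_coe, hs, Fintype.card_fin]))⟩
    let F : Fin (n + 1) → k[X] := fun j => f (σ j)
    have hF : ∀ j, F j ≠ 0 := fun j => hf _ (σ j).2
    -- the common divisor
    obtain ⟨g, hg⟩ := (IsPrincipalIdealRing.principal (Ideal.span (Set.range F))).principal
    have hg1 : ∀ j, ∃ h, F j = g * h := by
      intro j
      have : F j ∈ Ideal.span (Set.range F) := Ideal.subset_span ⟨j, rfl⟩
      rw [hg] at this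
      obtain ⟨h, hh⟩ := Ideal.mem_span_singleton'.mp this
      exact ⟨h, by rw [← hh, mul_comm]⟩
    choose h hh using hg1
    have hg0 : g ≠ 0 := by
      rintro rfl
      exact hF 0 (by rw [hh, zero_mul])
    have hg2 : g ∈ Ideal.span (Set.range F) := by
      rw [hg]; exact Ideal.mem_span_singleton_self g
    obtain ⟨u, hu⟩ := (Ideal.mem_span_range_iff_exists_fun).mp hg2
    have hu' : ∑ j, u j * h j = 1 := by
      have h1 : g * ∑ j, u j * h j = g * 1 := by
        rw [mul_one]
        conv_rhs => rw [← hu]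
        rw [Finset.mul_sum]
        refine Finset.sum_congr rfl fun j _ => ?_
        rw [hh]; ring
      exact mul_left_cancel₀ hg0 h1
    have hh0 : ∀ j, h j ≠ 0 := by
      intro j hj
      exact hF j (by rw [hh, hj, mul_zero])
    have hge : g ^ e ≠ 0 := pow_ne_zero _ hg0
    have hsum : ∀ b : Fin (n + 1) → k, g ^ e * ∑ j, C (b j) * h j ^ e = ∑ j, C (b j) * F j ^ e := by
      intro b
      rw [Finset.mul_sum]
      refine Finset.sum_congr rfl fun j _ => ?_
      rw [hh, mul_pow]; ring
    have hrel : ∑ j, C (a (σ j)) * h j ^ e = 0 := by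
      have h1 := hsum (fun j => a (σ j))
      have h2 : ∑ j, C (a (σ j)) * F j ^ e = ∑ i ∈ s, C (a i) * f i ^ e := by
        rw [← Finset.sum_coe_sort s (fun i => C (a i) * f i ^ e)]
        exact Fintype.sum_equiv σ _ _ (fun j => rfl)
      rw [h2, ha] at h1
      exact (mul_eq_zero.mp h1).resolve_left hge
    have hli : LinearIndependent k fun j : Fin n => h j.succ ^ e := by
      rw [Fintype.linearIndependent_iff]
      intro b hb j
      -- extend `b` by zero
      let B : Fin (n + 1) → k := Fin.cases 0 b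
      have h1 : ∑ j, C (B j) * F j ^ e = 0 := by
        rw [← hsum, Fin.sum_univ_succ]
        have : C (B 0) = 0 := by simp [B]
        rw [this, zero_mul, zero_add]
        have h2 : ∑ i : Fin n, C (B i.succ) * h i.succ ^ e = 0 := by
          rw [← hb]
          refine Finset.sum_congr rfl fun j _ => ?_
          simp only [B, Fin.cases_succ, smul_eq_C_mul]
        rw [h2, mul_zero]
      have h3 := hsub (σ 0) (σ 0).2 (fun i => if hi : i ∈ s then B (σ.symm ⟨i, hi⟩) else 0) (by
        have h4 : ∑ i ∈ s, C (if hi : i ∈ s then B (σ.symm ⟨i, hi⟩) else 0) * f i ^ e = 0 := by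
          rw [← h1, ← Finset.sum_coe_sort s]
          symm
          refine Fintype.sum_equiv σ _ _ (fun j => ?_)
          rw [dif_pos (σ j).2]
          simp [F]
        rw [← Finset.add_sum_erase _ _ (σ 0).2, dif_pos (σ 0).2] at h4
        have h5 : B (σ.symm ⟨(σ 0 : ι), (σ 0).2⟩) = 0 := by simp [B]
        rw [h5, C_0, zero_mul, zero_add] at h4
        exact h4) (σ j.succ) (Finset.mem_erase.mpr ⟨fun h => by
          have := σ.injective (Subtype.ext h)
          exact (Fin.succ_ne_zero j) this, (σ j.succ).2⟩)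
      rw [dif_pos (σ j.succ).2] at h3
      simpa [B] using h3
    have hbound : (n + 1) * (n - 1) < e := by
      refine lt_of_le_of_lt ?_ he
      have h1 : n - 1 ≤ q - 2 := by omega
      exact Nat.mul_le_mul hn h1
    have hdeg := newman_slater hbound h hh0 (fun j => a (σ j)) (fun j => hall _ (σ j).2) hrel hli u hu'
    -- all `h j` are constant
    have hc : ∀ j, ∃ c : k, c ≠ 0 ∧ h j = C c := by
      intro j
      obtain ⟨c, hc⟩ := natDegree_eq_zero.mp (hdeg j)
      refine ⟨c, ?_, hc.symm⟩
      rintro rfl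
      exact hh0 j (by rw [← hc, C_0])
    choose c hc0 hc using hc
    rcases Nat.eq_zero_or_pos n with rfl | hnpos
    · -- one power
      have h1 : C (a (σ 0)) * h 0 ^ e = 0 := by
        have := hrel
        rwa [Fin.sum_univ_succ, Fin.sum_univ_zero, add_zero] at this
      rcases mul_eq_zero.mp h1 with h2 | h2
      · rw [C_eq_zero] at h2
        exact hall _ (σ 0).2 h2
      · exact pow_ne_zero _ (hh0 0) h2
    · obtain ⟨n', rfl⟩ : ∃ n', n = n' + 1 := ⟨n - 1, by omega⟩
      have h01 : (σ 0 : ι) ≠ σ 1 := by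
        intro h
        have := σ.injective (Subtype.ext h)
        exact absurd this (by simp)
      apply hne (σ 0) (σ 0).2 (σ 1) (σ 1).2 h01 ((c 0 / c 1) ^ e)
      change F 0 ^ e = _ * F 1 ^ e
      rw [hh, hh, hc, hc, mul_pow, mul_pow, ← C_pow, ← C_pow]
      have : C (c 0 ^ e) = C ((c 0 / c 1) ^ e) * (C (c 1 ^ e) : k[X]) := by
        rw [← C_mul, ← mul_pow, div_mul_cancel₀ _ (hc0 1)]
      rw [this]
      ring

/-- Relations between `e`-th powers of rational functions are graded: if `c i z_i ^ e` add up to zero,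
then also the sum of those with the same weight is zero, for each weight function which has the same
value for proportional powers. -/
theorem graded_powers {ι : Type} [Fintype ι] (q e : ℕ) (hq : Fintype.card ι ≤ q) (he : q * (q - 2) < e)
    (z : ι → RatFunc k) (hz : ∀ i, z i ≠ 0) (c : ι → k)
    (hsum : ∑ i, RatFunc.C (c i) * z i ^ e = 0) (w : ι → ℝ)
    (hw : ∀ i j, (∃ κ : k, z i ^ e = RatFunc.C κ * z j ^ e) → w i = w j) (s : ℝ) :
    ∑ i, (if w i = s then RatFunc.C (c i) * z i ^ e else 0) = 0 := by
  classical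
  -- common denominator
  obtain ⟨g, hg⟩ := IsLocalization.exist_integer_multiples_of_finite (nonZeroDivisors k[X]) z
  choose f hf using fun i => hg i
  have hg0 : algebraMap k[X] (RatFunc k) (g : k[X]) ≠ 0 := by
    rw [Ne, map_eq_zero_iff _ (IsFractionRing.injective k[X] (RatFunc k))]
    exact nonZeroDivisors.coe_ne_zero g
  have hf' : ∀ i, algebraMap k[X] (RatFunc k) (f i) = algebraMap k[X] (RatFunc k) (g : k[X]) * z i := by
    intro i
    rw [hf i, Algebra.smul_def]
  have hinj := IsFractionRing.injective k[X] (RatFunc k)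
  have hf0 : ∀ i, f i ≠ 0 := by
    intro i h0
    have := hf' i
    rw [h0, map_zero] at this
    exact mul_ne_zero hg0 (hz i) this.symm
  have hCa : ∀ κ : k, algebraMap k[X] (RatFunc k) (C κ) = RatFunc.C κ := fun κ => RatFunc.algebraMap_C κ
  have hprop : ∀ i j (κ : k), f i ^ e = C κ * f j ^ e ↔ z i ^ e = RatFunc.C κ * z j ^ e := by
    intro i j κ
    rw [← hinj.eq_iff, map_pow, map_mul, map_pow, hf', hf', hCa, mul_pow, mul_pow]
    constructor
    · intro h
      apply mul_left_cancel₀ (pow_ne_zero e hg0)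
      rw [h]; ring
    · intro h
      rw [h]; ring
  -- representatives
  let r : Setoid ι := 
    { r := fun i j => ∃ κ : k, z i ^ e = RatFunc.C κ * z j ^ e
      iseqv := 
        { refl := fun i => ⟨1, by rw [map_one, one_mul]⟩
          symm := by
            rintro i j ⟨κ, h⟩
            have hκ : κ ≠ 0 := by
              rintro rfl
              rw [map_zero, zero_mul] at h
              exact pow_ne_zero _ (hz i) h
            refine ⟨κ⁻¹, ?_⟩
            rw [h, ← mul_assoc, ← map_mul, inv_mul_cancel₀ hκ, map_one, one_mul]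
          trans := by
            rintro i j l ⟨κ, h⟩ ⟨κ', h'⟩
            exact ⟨κ * κ', by rw [h, h', map_mul, mul_assoc]⟩ } }
  let rep : ι → ι := fun i => (Quotient.mk r i).out
  have hrep : ∀ i, ∃ κ : k, z i ^ e = RatFunc.C κ * z (rep i) ^ e := by
    intro i
    have h1 : Quotient.mk r (rep i) = Quotient.mk r i := Quotient.out_eq _
    exact Quotient.exact h1.symm
  have hrep2 : ∀ i j, (∃ κ : k, z i ^ e = RatFunc.C κ * z j ^ e) → rep i = rep j := by
    intro i j h
    have h1 : Quotient.mk r i = Quotient.mk r j := Quotient.sound h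
    change (Quotient.mk r i).out = (Quotient.mk r j).out
    rw [h1]
  choose κ hκ using hrep
  have hreprep : ∀ i, rep (rep i) = rep i := fun i => (hrep2 i (rep i) ⟨κ i, hκ i⟩).symm
  set S := Finset.univ.image rep with hS
  let A : ι → k := fun j => ∑ i ∈ Finset.univ.filter (fun i => rep i = j), c i * κ i
  have hfib : ∀ j, ∑ i ∈ Finset.univ.filter (fun i => rep i = j), RatFunc.C (c i) * z i ^ e
      = RatFunc.C (A j) * z j ^ e := by
    intro j
    simp only [A]
    rw [map_sum, Finset.sum_mul]
    refine Finset.sum_congr rfl fun i hi => ?_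
    rw [Finset.mem_filter] at hi
    rw [hκ i, hi.2, map_mul, mul_assoc]
  have h0 : ∑ j ∈ S, RatFunc.C (A j) * z j ^ e = 0 := by
    rw [← hsum, ← Finset.sum_fiberwise_of_maps_to (s := Finset.univ) (t := S) (g := rep)
      (fun i _ => Finset.mem_image_of_mem _ (Finset.mem_univ i))]
    exact Finset.sum_congr rfl fun j _ => (hfib j).symm
  have h0' : ∑ j ∈ S, C (A j) * f j ^ e = 0 := by
    apply hinj
    rw [map_zero, map_sum]
    have h1 : algebraMap k[X] (RatFunc k) (g : k[X]) ^ e * ∑ j ∈ S, RatFunc.C (A j) * z j ^ e = 0 := by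
      rw [h0, mul_zero]
    rw [← h1, Finset.mul_sum]
    refine Finset.sum_congr rfl fun j _ => ?_
    rw [map_mul, map_pow, hf', hCa, mul_pow]
    ring
  have hA := powers_indep q e he f S.card S rfl ((Finset.card_le_univ _).trans hq) (fun i _ => hf0 i) (by
    intro i hi j hj hij κ' h
    rw [hprop] at h
    have h1 := hrep2 i j ⟨κ', h⟩
    rw [hS, Finset.mem_image] at hi hj
    obtain ⟨i', -, rfl⟩ := hi
    obtain ⟨j', -, rfl⟩ := hj
    rw [hreprep, hreprep] at h1
    exact hij h1) A h0'
  rw [← Finset.sum_fiberwise_of_maps_to (s := Finset.univ) (t := S) (g := rep)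
      (fun i _ => Finset.mem_image_of_mem _ (Finset.mem_univ i))]
  refine Finset.sum_eq_zero fun j hj => ?_
  have h2 : ∑ i ∈ Finset.univ.filter (fun i => rep i = j), (if w i = s then RatFunc.C (c i) * z i ^ e else 0)
      = if w j = s then ∑ i ∈ Finset.univ.filter (fun i => rep i = j), RatFunc.C (c i) * z i ^ e else 0 := by
    have h3 : ∀ i ∈ Finset.univ.filter (fun i => rep i = j), w i = w j := by
      intro i hi
      rw [Finset.mem_filter] at hi
      apply hw
      exact ⟨κ i, by rw [hκ i, hi.2]⟩
    by_cases hwj : w j = s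
    · rw [if_pos hwj]
      refine Finset.sum_congr rfl fun i hi => ?_
      rw [if_pos ((h3 i hi).trans hwj)]
    · rw [if_neg hwj]
      refine Finset.sum_eq_zero fun i hi => ?_
      rw [if_neg]
      rw [h3 i hi]; exact hwj
  rw [h2, hfib, hA j hj, map_zero, zero_mul]
  exact ite_self 0

end Pool.Agent.H861.KF
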