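import Mathlib
import Pool.Agent.H861.KF.I

/-!
# Weights of rational functions
-/

set_option autoImplicit false

open Polynomial Finset IsDedekindDomain

namespace Pool.Agent.H861.KF

variable {k : Type} [Field k]

/-- a homomorphism from the multiplicative group to the real numbers, trivial on the constants -/
structure IsWeight (w : RatFunc k → ℝ) : Prop where
  mul : ∀ x y, x ≠ 0 → y ≠ 0 → w (x * y) = w x + w y
  const : ∀ c : k, c ≠ 0 → w (RatFunc.C c) = 0

lemma IsWeight.one {w : RatFunc k → ℝ} (hw : IsWeight w) : w 1 = 0 := by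
  rw [← map_one RatFunc.C]
  exact hw.const 1 one_ne_zero

lemma IsWeight.pow {w : RatFunc k → ℝ} (hw : IsWeight w) (x : RatFunc k) (hx : x ≠ 0) (n : ℕ) :
    w (x ^ n) = n * w x := by
  induction n with
  | zero => rw [pow_zero, hw.one]; simp
  | succ n ih => rw [pow_succ, hw.mul _ _ (pow_ne_zero _ hx) hx, ih]; push_cast; ring

lemma IsWeight.prod {w : RatFunc k → ℝ} (hw : IsWeight w) {ι : Type} (s : Finset ι) (x : ι → RatFunc k)
    (hx : ∀ i ∈ s, x i ≠ 0) : w (∏ i ∈ s, x i) = ∑ i ∈ s, w (x i) := by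
  classical
  induction s using Finset.induction_on with
  | empty => rw [Finset.prod_empty, Finset.sum_empty, hw.one]
  | insert i s hi ih =>
    rw [Finset.prod_insert hi, Finset.sum_insert hi, hw.mul _ _ (hx i (Finset.mem_insert_self _ _))
      (Finset.prod_ne_zero_iff.mpr fun j hj => hx j (Finset.mem_insert_of_mem hj)),
      ih fun j hj => hx j (Finset.mem_insert_of_mem hj)]

/-- a place gives a weight -/
lemma isWeight_place (v : HeightOneSpectrum k[X]) :
    IsWeight fun x : RatFunc k => ((WithZero.log (v.valuation (RatFunc k) x) : ℤ) : ℝ) := by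
  refine ⟨fun x y hx hy => ?_, fun c hc => ?_⟩
  · rw [map_mul, WithZero.log_mul ((Valuation.ne_zero_iff _).mpr hx) ((Valuation.ne_zero_iff _).mpr hy)]
    push_cast; ring
  · have h1 : ∀ d : k, v.valuation (RatFunc k) (RatFunc.C d) ≤ 1 := by
      intro d
      have : v.valuation (RatFunc k) (algebraMap k[X] (RatFunc k) (C d)) ≤ 1 := v.valuation_le_one (C d)
      rwa [RatFunc.algebraMap_C] at this
    have h2 : v.valuation (RatFunc k) (RatFunc.C c) * v.valuation (RatFunc k) (RatFunc.C c⁻¹) = 1 := by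
      rw [← map_mul, ← map_mul, mul_inv_cancel₀ hc, map_one, map_one]
    have h3 : v.valuation (RatFunc k) (RatFunc.C c) = 1 := by
      refine le_antisymm (h1 c) ?_
      rw [← h2]
      exact mul_le_of_le_one_right' (h1 c⁻¹)
    simp only [h3, WithZero.log_one, Int.cast_zero]

/-- a nonconstant rational function has a nonzero weight -/
lemma exists_place {x : RatFunc k} (hx0 : x ≠ 0) (hx : ∀ c, x ≠ RatFunc.C c) :
    ∃ w : RatFunc k → ℝ, IsWeight w ∧ w x ≠ 0 := by
  by_contra hcon
  push Not at hcon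
  have h1 : ∀ v : HeightOneSpectrum k[X], v.valuation (RatFunc k) x = 1 := by
    intro v
    have h2 := hcon _ (isWeight_place v)
    have h3 : WithZero.log (v.valuation (RatFunc k) x) = 0 := by exact_mod_cast h2
    have h4 := (Valuation.ne_zero_iff (v.valuation (RatFunc k))).mpr hx0
    rw [← WithZero.exp_log h4, h3]
    rfl
  obtain ⟨y, hy⟩ := HeightOneSpectrum.mem_integers_of_valuation_le_one (R := k[X]) (RatFunc k) x
    fun v => (h1 v).le
  obtain ⟨z, hz⟩ := HeightOneSpectrum.mem_integers_of_valuation_le_one (R := k[X]) (RatFunc k) x⁻¹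
    fun v => by rw [map_inv₀, h1 v, inv_one]
  have h5 : y * z = 1 := by
    apply IsFractionRing.injective k[X] (RatFunc k)
    rw [map_mul, hy, hz, map_one, mul_inv_cancel₀ hx0]
  have h6 : IsUnit y := .of_mul_eq_one _ h5
  rw [Polynomial.isUnit_iff] at h6
  obtain ⟨c, -, hc⟩ := h6
  apply hx c
  rw [← hy, ← hc, RatFunc.algebraMap_C]

/-- one weight which is not zero at finitely many nonconstant functions -/
lemma exists_weight {ι : Type} [Finite ι] (x : ι → RatFunc k) (hx0 : ∀ i, x i ≠ 0)
    (hx : ∀ i c, x i ≠ RatFunc.C c) : ∃ w : RatFunc k → ℝ, IsWeight w ∧ ∀ i, w (x i) ≠ 0 := by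
  let V : Submodule ℝ (RatFunc k → ℝ) :=
    { carrier := {w | IsWeight w}
      add_mem' := by
        rintro w w' h h'
        refine ⟨fun x y hx hy => ?_, fun c hc => ?_⟩
        · simp only [Pi.add_apply, h.mul x y hx hy, h'.mul x y hx hy]; ring
        · simp only [Pi.add_apply, h.const c hc, h'.const c hc, add_zero]
      zero_mem' := ⟨fun _ _ _ _ => by simp, fun _ _ => rfl⟩
      smul_mem' := by
        rintro r w h
        refine ⟨fun x y hx hy => ?_, fun c hc => ?_⟩
        · simp only [Pi.smul_apply, h.mul x y hx hy, smul_eq_mul]; ring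
        · simp only [Pi.smul_apply, h.const c hc, smul_eq_mul, mul_zero] }
  let H : ι → Subspace ℝ V := fun i =>
    LinearMap.ker ((LinearMap.proj (x i) : (RatFunc k → ℝ) →ₗ[ℝ] ℝ).comp V.subtype)
  by_contra hcon
  push Not at hcon
  have hcov : ⋃ i, (H i : Set V) = Set.univ := by
    rw [Set.eq_univ_iff_forall]
    rintro ⟨w, hw⟩
    obtain ⟨i, hi⟩ := hcon w hw
    rw [Set.mem_iUnion]
    exact ⟨i, hi⟩
  obtain ⟨i, hi⟩ := Subspace.exists_eq_top_of_iUnion_eq_univ hcov
  obtain ⟨w, hw, hwi⟩ := exists_place (hx0 i) (hx i)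
  have h1 : (⟨w, hw⟩ : V) ∈ H i := by rw [hi]; exact Submodule.mem_top
  exact hwi h1

end Pool.Agent.H861.KF
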