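import Mathlib
import Pool.Agent.H861.KF.W
import Pool.Agent.H861.KF.D

/-!
# Scaling of the coordinates (after the library module NH8.UG)
-/

set_option autoImplicit false

open MvPolynomial

namespace Pool.Agent.H861.KF

variable {L : Type} [Field L]

/-! ### Scaling of the coordinates -/

/-- the polynomial `F (u X, v Y)` -/
noncomputable def scale (u v : L) : MvPolynomial (Fin 2) L →ₐ[L] MvPolynomial (Fin 2) L :=
  aeval ![C u * X 0, C v * X 1]

theorem scale_monomial (u v : L) (s : Fin 2 →₀ ℕ) (a : L) :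
    scale u v (monomial s a) = monomial s (u ^ s 0 * v ^ s 1 * a) := by
  unfold scale
  rw [aeval_monomial, Finsupp.prod_fintype _ _ (fun _ => pow_zero _), Fin.prod_univ_two,
    monomial_eq (s := s) (a := u ^ s 0 * v ^ s 1 * a),
    Finsupp.prod_fintype _ _ (fun _ => pow_zero _), Fin.prod_univ_two]
  show C a * ((C u * X 0) ^ s 0 * (C v * X 1) ^ s 1) = _
  rw [mul_pow, mul_pow, C_mul, C_mul, C_pow, C_pow]
  ring

theorem scale_coeff (u v : L) (F : MvPolynomial (Fin 2) L) (s : Fin 2 →₀ ℕ) :
    (scale u v F).coeff s = u ^ s 0 * v ^ s 1 * F.coeff s := by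
  classical
  induction F using MvPolynomial.induction_on' with
  | monomial t a =>
    rw [scale_monomial, coeff_monomial, coeff_monomial]
    by_cases h : t = s
    · rw [if_pos h, if_pos h, h]
    · rw [if_neg h, if_neg h, mul_zero]
  | add p q hp hq => rw [map_add, coeff_add, hp, hq, coeff_add, mul_add]

theorem scale_support {u v : L} (hu : u ≠ 0) (hv : v ≠ 0) (F : MvPolynomial (Fin 2) L) :
    (scale u v F).support = F.support := by
  ext s
  rw [mem_support_iff, mem_support_iff, scale_coeff]
  constructor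
  · exact fun h h0 => h (by rw [h0, mul_zero])
  · exact fun h => mul_ne_zero (mul_ne_zero (pow_ne_zero _ hu) (pow_ne_zero _ hv)) h

theorem scale_degree {u v : L} (hu : u ≠ 0) (hv : v ≠ 0) (F : MvPolynomial (Fin 2) L) :
    (scale u v F).totalDegree = F.totalDegree := by
  unfold totalDegree
  rw [scale_support hu hv]

theorem scale_eval (u v x y : L) (F : MvPolynomial (Fin 2) L) :
    eval ![x, y] (scale u v F) = eval ![u * x, v * y] F := by
  induction F using MvPolynomial.induction_on' with
  | monomial s a =>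
    rw [scale_monomial, eval_monomial, eval_monomial,
      Finsupp.prod_fintype _ _ (fun _ => pow_zero _), Fin.prod_univ_two,
      Finsupp.prod_fintype _ _ (fun _ => pow_zero _), Fin.prod_univ_two]
    show u ^ s 0 * v ^ s 1 * a * (x ^ s 0 * y ^ s 1) = a * ((u * x) ^ s 0 * (v * y) ^ s 1)
    rw [mul_pow, mul_pow]
    ring
  | add p q hp hq => rw [map_add, map_add, hp, hq, map_add]

theorem scale_scale (u v u' v' : L) (F : MvPolynomial (Fin 2) L) :
    scale u v (scale u' v' F) = scale (u * u') (v * v') F := by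
  ext s
  rw [scale_coeff, scale_coeff, scale_coeff, mul_pow, mul_pow]
  ring

theorem scale_one (F : MvPolynomial (Fin 2) L) : scale 1 1 F = F := by
  ext s
  rw [scale_coeff, one_pow, one_pow, one_mul, one_mul]

/-- scaling as an automorphism -/
noncomputable def scaleEquiv {u v : L} (hu : u ≠ 0) (hv : v ≠ 0) :
    MvPolynomial (Fin 2) L ≃ₐ[L] MvPolynomial (Fin 2) L :=
  AlgEquiv.ofAlgHom (scale u v) (scale u⁻¹ v⁻¹)
    (AlgHom.ext fun F => by
      rw [AlgHom.comp_apply, scale_scale, mul_inv_cancel₀ hu, mul_inv_cancel₀ hv, scale_one,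
        AlgHom.id_apply])
    (AlgHom.ext fun F => by
      rw [AlgHom.comp_apply, scale_scale, inv_mul_cancel₀ hu, inv_mul_cancel₀ hv, scale_one,
        AlgHom.id_apply])

theorem scale_irreducible {u v : L} (hu : u ≠ 0) (hv : v ≠ 0) {F : MvPolynomial (Fin 2) L}
    (hF : Irreducible F) : Irreducible (scale u v F) :=
  (MulEquiv.irreducible_iff (scaleEquiv hu hv).toMulEquiv).2 hF

/-! ### The number of monomials -/

theorem card_Ix (e : ℕ) : 2 * Fintype.card (Ix e) ≤ (e + 1) * (e + 2) := by
  classical
  rw [← card_tri e]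
  refine Nat.mul_le_mul_left _ ?_
  rw [← Finset.card_univ]
  refine Finset.card_le_card_of_injOn (fun p : Ix e => (ea p, eb p)) ?_ ?_
  · intro p _
    rw [Finset.mem_coe, Finset.mem_biUnion]
    refine ⟨ea p + eb p, ?_, ?_⟩
    · rw [Finset.mem_range]
      have := e_le p
      omega
    · rw [Finset.HasAntidiagonal.mem_antidiagonal]
  · intro p _ q _ h
    obtain ⟨h1, h2⟩ := Prod.mk.inj h
    exact e_ext h1 h2

theorem card_Ix' (e : ℕ) : Fintype.card (Ix e) ≤ (e + 1) * (e + 2) / 2 := by
  have := card_Ix e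
  omega


end Pool.Agent.H861.KF
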