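import Mathlib
import Pool.Agent.H861.KF.Z

/-!
# Many points on a Kummer covering over a rational function field: the curve is constant
-/

set_option autoImplicit false

open MvPolynomial

namespace Pool.Agent.H861.KF

variable {k : Type} [Field k] [CharZero k] {e : ℕ}

/-- the determinants split in graded parts -/
theorem graded_det {F : MvPolynomial (Fin 2) (RatFunc k)} (hF0 : F ≠ 0) (hFe : F.totalDegree ≤ e)
    {m n : ℕ} (hg : (Fintype.card (Ix e)).factorial * ((Fintype.card (Ix e)).factorial - 2) <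
      Nat.gcd m n)
    {J : Type} (x y : J → RatFunc k) (hx : ∀ j, x j ≠ 0) (hy : ∀ j, y j ≠ 0)
    (hFj : ∀ j, eval ![x j ^ m, y j ^ n] F = 0) (lam : RatFunc k → ℝ) (hlam : IsWeight lam)
    (f : Ix e → J) (s : ℝ) :
    ∑ σ : Equiv.Perm (Ix e), (if ∑ p, ((ea p : ℝ) * lam (x (f (σ p)) ^ m) +
      (eb p : ℝ) * lam (y (f (σ p)) ^ n)) = s then ((Equiv.Perm.sign σ : ℤ) : RatFunc k) *
        ∏ p, ((x (f (σ p)) ^ m) ^ ea p * (y (f (σ p)) ^ n) ^ eb p) else 0) = 0 := by
  classical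
  obtain ⟨g, hgdef⟩ : ∃ g, g = Nat.gcd m n := ⟨_, rfl⟩
  rw [← hgdef] at hg
  obtain ⟨m', hm'⟩ : g ∣ m := hgdef ▸ Nat.gcd_dvd_left m n
  obtain ⟨n', hn'⟩ : g ∣ n := hgdef ▸ Nat.gcd_dvd_right m n
  obtain ⟨z, hz⟩ : ∃ z : Equiv.Perm (Ix e) → RatFunc k, ∀ σ, z σ =
      ∏ p, (x (f (σ p)) ^ (m' * ea p) * y (f (σ p)) ^ (n' * eb p)) := ⟨_, fun _ => rfl⟩
  have hz0 : ∀ σ, z σ ≠ 0 := by
    intro σ
    rw [hz]
    exact Finset.prod_ne_zero_iff.mpr fun p _ => mul_ne_zero (pow_ne_zero _ (hx _)) (pow_ne_zero _ (hy _))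
  have hzg : ∀ σ, z σ ^ g = ∏ p, ((x (f (σ p)) ^ m) ^ ea p * (y (f (σ p)) ^ n) ^ eb p) := by
    intro σ
    rw [hz, ← Finset.prod_pow]
    refine Finset.prod_congr rfl fun p _ => ?_
    rw [mul_pow, ← pow_mul, ← pow_mul, ← pow_mul, ← pow_mul, hm', hn']
    congr 2 <;> ring
  have hlz : ∀ σ, lam (z σ ^ g) = ∑ p, ((ea p : ℝ) * lam (x (f (σ p)) ^ m) +
      (eb p : ℝ) * lam (y (f (σ p)) ^ n)) := by
    intro σ
    rw [hzg, hlam.prod]
    · refine Finset.sum_congr rfl fun p _ => ?_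
      rw [hlam.mul _ _ (pow_ne_zero _ (pow_ne_zero _ (hx _))) (pow_ne_zero _ (pow_ne_zero _ (hy _))),
        hlam.pow _ (pow_ne_zero _ (hx _)), hlam.pow _ (pow_ne_zero _ (hy _))]
    · intro p _
      exact mul_ne_zero (pow_ne_zero _ (pow_ne_zero _ (hx _))) (pow_ne_zero _ (pow_ne_zero _ (hy _)))
  -- the determinant vanishes
  have hdet : Matrix.det (Matrix.of fun i p : Ix e =>
      (x (f i) ^ m) ^ ea p * (y (f i) ^ n) ^ eb p) = 0 := by
    rw [← Matrix.exists_mulVec_eq_zero_iff]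
    refine ⟨fun p => F.coeff (mon p), ?_, ?_⟩
    · intro h0
      apply hF0
      rw [eq_pol (e := e) hFe]
      unfold pol
      have : ∀ p : Ix e, F.coeff (mon p) = 0 := fun p => congrFun h0 p
      simp [this]
    · funext i
      have h1 := hFj (f i)
      rw [eval_eq hFe] at h1
      simp only [Matrix.mulVec, dotProduct, Matrix.of_apply, Pi.zero_apply]
      rw [← h1]
      exact Finset.sum_congr rfl fun p _ => mul_comm _ _
  rw [Matrix.det_apply] at hdet
  simp only [Matrix.of_apply] at hdet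
  have h2 := graded_powers (Fintype.card (Ix e)).factorial g (by rw [Fintype.card_perm]) hg z hz0
    (fun σ => ((Equiv.Perm.sign σ : ℤ) : k)) (by
      rw [← hdet]
      refine Finset.sum_congr rfl fun σ _ => ?_
      rw [map_intCast, hzg, Units.smul_def, zsmul_eq_mul])
    (fun σ => lam (z σ ^ g)) (by
      rintro σ τ ⟨κ, hκ⟩
      have hκ0 : κ ≠ 0 := by
        rintro rfl
        rw [map_zero, zero_mul] at hκ
        exact pow_ne_zero _ (hz0 σ) hκ
      show lam (z σ ^ g) = lam (z τ ^ g)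
      rw [hκ, hlam.mul _ _ ((map_ne_zero _).mpr hκ0) (pow_ne_zero _ (hz0 τ)), hlam.const κ hκ0, zero_add]) s
  refine Eq.trans ?_ h2
  refine Finset.sum_congr rfl fun σ _ => ?_
  rw [hlz, hzg, map_intCast]

/-- the points with constant equations are constant -/
theorem const_of {F : MvPolynomial (Fin 2) (RatFunc k)} (hF : Irreducible F) (hFe : F.totalDegree = e)
    (h3 : 3 ≤ F.support.card) {m n : ℕ} (hm : m ≠ 0) (hn : n ≠ 0)
    (hg : (Fintype.card (Ix e)).factorial * ((Fintype.card (Ix e)).factorial - 2) < Nat.gcd m n)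
    (u : RatFunc k) (c : Ix e → k)
    (hc : ∀ p, F.coeff (mon p) = u * RatFunc.C (c p)) {x y : RatFunc k} (hx : x ≠ 0) (hy : y ≠ 0)
    (hxy : eval ![x ^ m, y ^ n] F = 0) : (∃ α, x = RatFunc.C α) ∧ ∃ β, y = RatFunc.C β := by
  classical
  have hu : u ≠ 0 := by
    rintro rfl
    apply hF.ne_zero
    rw [eq_pol (e := e) hFe.le]
    unfold pol
    simp [hc]
  obtain ⟨g, hgdef⟩ : ∃ g, g = Nat.gcd m n := ⟨_, rfl⟩
  rw [← hgdef] at hg
  obtain ⟨m', hm'⟩ : g ∣ m := hgdef ▸ Nat.gcd_dvd_left m n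
  obtain ⟨n', hn'⟩ : g ∣ n := hgdef ▸ Nat.gcd_dvd_right m n
  have key : ∀ lam : RatFunc k → ℝ, IsWeight lam → lam x = 0 ∧ lam y = 0 := by
    intro lam hlam
    obtain ⟨z, hz⟩ : ∃ z : Ix e → RatFunc k, ∀ p, z p = x ^ (m' * ea p) * y ^ (n' * eb p) :=
      ⟨_, fun _ => rfl⟩
    have hz0 : ∀ p, z p ≠ 0 := fun p => by
      rw [hz]
      exact mul_ne_zero (pow_ne_zero _ hx) (pow_ne_zero _ hy)
    have hzg : ∀ p, z p ^ g = (x ^ m) ^ ea p * (y ^ n) ^ eb p := by
      intro p
      rw [hz, mul_pow, ← pow_mul, ← pow_mul, ← pow_mul, ← pow_mul, hm', hn']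
      congr 2 <;> ring
    have hlz : ∀ p, lam (z p ^ g) = (ea p : ℝ) * lam (x ^ m) + (eb p : ℝ) * lam (y ^ n) := by
      intro p
      rw [hzg, hlam.mul _ _ (pow_ne_zero _ (pow_ne_zero _ hx)) (pow_ne_zero _ (pow_ne_zero _ hy)),
        hlam.pow _ (pow_ne_zero _ hx), hlam.pow _ (pow_ne_zero _ hy)]
    have hcard : Fintype.card (Ix e) ≤ (Fintype.card (Ix e)).factorial := Nat.self_le_factorial _
    have h1 : ∀ s : ℝ, ∑ p : Ix e, (if lam (z p ^ g) = s then RatFunc.C (c p) * z p ^ g else 0) = 0 := by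
      refine graded_powers (Fintype.card (Ix e)).factorial g hcard hg z hz0 c ?_ _ ?_
      · rw [eval_eq hFe.le] at hxy
        have h2 : u * ∑ p : Ix e, RatFunc.C (c p) * z p ^ g = 0 := by
          rw [← hxy, Finset.mul_sum]
          refine Finset.sum_congr rfl fun p _ => ?_
          rw [hc, hzg]
          ring
        exact (mul_eq_zero.1 h2).resolve_left hu
      · rintro p q ⟨κ, hκ⟩
        have hκ0 : κ ≠ 0 := by
          rintro rfl
          rw [map_zero, zero_mul] at hκ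
          exact pow_ne_zero _ (hz0 p) hκ
        rw [hκ, hlam.mul _ _ ((map_ne_zero _).mpr hκ0) (pow_ne_zero _ (hz0 q)), hlam.const κ hκ0,
          zero_add]
    have hxm : x ^ m ≠ 0 := pow_ne_zero _ hx
    have hyn : y ^ n ≠ 0 := pow_ne_zero _ hy
    have h2 := no_subgroup (scale_irreducible hxm hyn hF) ((scale_degree hxm hyn F).trans hFe)
      (by rw [scale_support hxm hyn]; exact h3) (lam (x ^ m)) (lam (y ^ n)) (fun s => by
        have h3 : u * ∑ p : Ix e, (if lam (z p ^ g) = s then RatFunc.C (c p) * z p ^ g else 0) = 0 := by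
          rw [h1, mul_zero]
        rw [Finset.mul_sum] at h3
        refine Eq.trans ?_ h3
        refine Finset.sum_congr rfl fun p _ => ?_
        rw [hlz, scale_coeff, mon_zero, mon_one, hc, hzg]
        split_ifs
        · ring
        · rw [mul_zero])
    rw [hlam.pow _ hx, hlam.pow _ hy] at h2
    exact ⟨(mul_eq_zero.1 h2.1).resolve_left (Nat.cast_ne_zero.mpr hm),
      (mul_eq_zero.1 h2.2).resolve_left (Nat.cast_ne_zero.mpr hn)⟩
  constructor
  · by_contra hcon
    push Not at hcon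
    obtain ⟨w, hw, hw0⟩ := exists_place hx hcon
    exact hw0 (key w hw).1
  · by_contra hcon
    push Not at hcon
    obtain ⟨w, hw, hw0⟩ := exists_place hy hcon
    exact hw0 (key w hw).2

/-- **many points, with base point `(1, 1)`**: the equation is constant -/
theorem const_equation {F : MvPolynomial (Fin 2) (RatFunc k)} (hF : Irreducible F)
    (hFe : F.totalDegree = e) (h3 : 3 ≤ F.support.card) {m n : ℕ}
    (hg : (Fintype.card (Ix e)).factorial * ((Fintype.card (Ix e)).factorial - 2) < Nat.gcd m n)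
    {J : Type} [Finite J] (j0 : J) (x y : J → RatFunc k) (hx : ∀ j, x j ≠ 0) (hy : ∀ j, y j ≠ 0)
    (hx0 : x j0 = 1) (hy0 : y j0 = 1) (hFj : ∀ j, eval ![x j ^ m, y j ^ n] F = 0) (S : Finset J)
    (hinj : Set.InjOn (fun j => (x j ^ m, y j ^ n)) (S : Set J))
    (hcard : 2 ^ Fintype.card (Ix e) * e ^ 2 < S.card) :
    ∃ (u : RatFunc k) (c : Ix e → k), ∀ p, F.coeff (mon p) = u * RatFunc.C (c p) := by
  classical
  -- the weight
  obtain ⟨N, hN⟩ : ∃ N : J × Bool → RatFunc k, ∀ j b, N (j, b) = if b then x j ^ m else y j ^ n :=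
    ⟨fun t => if t.2 then x t.1 ^ m else y t.1 ^ n, fun _ _ => rfl⟩
  have hN0 : ∀ t, N t ≠ 0 := by
    rintro ⟨j, b⟩
    rw [hN]
    cases b
    · simpa using pow_ne_zero _ (hy j)
    · simpa using pow_ne_zero _ (hx j)
  obtain ⟨lam, hlam, hlam0⟩ := exists_weight
    (fun t : {t : J × Bool // ∀ c, N t ≠ RatFunc.C c} => N t.1) (fun t => hN0 _) (fun t => t.2)
  have hconst : ∀ t, lam (N t) = 0 → ∃ c, N t = RatFunc.C c := by
    intro t ht
    by_contra hcon
    push Not at hcon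
    exact hlam0 ⟨t, hcon⟩ ht
  -- the relation
  obtain ⟨c, hc0, hc⟩ := hahn (fun (j : J) (p : Ix e) => (x j ^ m) ^ ea p * (y j ^ n) ^ eb p)
    (fun (j : J) (p : Ix e) => (ea p : ℝ) * lam (x j ^ m) + (eb p : ℝ) * lam (y j ^ n))
    (fun f s => graded_det hF.ne_zero hFe.le hg x y hx hy hFj lam hlam f s)
  have hF1 : eval ![1, 1] F = 0 := by
    have h1 := hFj j0
    rwa [hx0, hy0, one_pow, one_pow] at h1
  obtain ⟨S', hS'S, hS'c, hS'⟩ := main hF hFe h3 j0 (fun j => x j ^ m) (fun j => y j ^ n)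
    (fun j => lam (x j ^ m)) (fun j => lam (y j ^ n)) (by simp only [hx0, one_pow])
    (by simp only [hy0, one_pow]) (by simp only [hx0, one_pow]; exact hlam.one)
    (by simp only [hy0, one_pow]; exact hlam.one) S hinj
    (fun j _ => hFj j) hF1 hcard c hc0 hc
  have hXc : ∀ j ∈ S', ∃ a : k, x j ^ m = RatFunc.C a := by
    intro j hj
    have h1 := hconst (j, true) (by rw [hN, if_pos rfl]; exact (hS' j hj).1)
    rw [hN, if_pos rfl] at h1
    exact h1
  have hYc : ∀ j ∈ S', ∃ a : k, y j ^ n = RatFunc.C a := by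
    intro j hj
    have h1 := hconst (j, false) (by rw [hN, if_neg Bool.false_ne_true]; exact (hS' j hj).2)
    rw [hN, if_neg Bool.false_ne_true] at h1
    exact h1
  -- a linear functional
  obtain ⟨p0, hp0⟩ : ∃ p0 : Ix e, F.coeff (mon p0) ≠ 0 := by
    by_contra h0
    push Not at h0
    apply hF.ne_zero
    rw [eq_pol (e := e) hFe.le]
    unfold pol
    simp [h0]
  obtain ⟨φ, hφ⟩ : ∃ φ : Module.Dual k (RatFunc k), φ (F.coeff (mon p0)) ≠ 0 := by
    by_contra hcon
    push Not at hcon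
    exact hp0 ((Module.forall_dual_apply_eq_zero_iff k _).1 hcon)
  obtain ⟨κ, hκ⟩ := smul_of hF hFe S' (fun j => x j ^ m) (fun j => y j ^ n)
    (hinj.mono (by exact_mod_cast hS'S)) (fun j _ => hFj j) hS'c
    (fun p => RatFunc.C (φ (F.coeff (mon p)))) (by
      intro j hj
      obtain ⟨a, ha⟩ := hXc j hj
      obtain ⟨b, hb⟩ := hYc j hj
      have h1 := hFj j
      rw [eval_eq hFe.le, ha, hb] at h1
      simp only [ha, hb]
      have h2 : ∀ p : Ix e, F.coeff (mon p) * (RatFunc.C a ^ ea p * RatFunc.C b ^ eb p) =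
          (a ^ ea p * b ^ eb p) • F.coeff (mon p) := by
        intro p
        rw [Algebra.smul_def, RatFunc.algebraMap_eq_C, map_mul, map_pow, map_pow]
        ring
      rw [Finset.sum_congr rfl fun p _ => h2 p] at h1
      have h3 := congrArg φ h1
      rw [map_sum, map_zero] at h3
      have h4 := congrArg RatFunc.C h3
      rw [map_sum, map_zero] at h4
      rw [← h4]
      refine Finset.sum_congr rfl fun p _ => ?_
      rw [map_smul, smul_eq_mul, map_mul, map_mul, map_pow, map_pow]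
      ring)
  have hκ0 : κ ≠ 0 := by
    rintro rfl
    have h1 := hκ p0
    rw [zero_mul] at h1
    exact hφ ((map_eq_zero RatFunc.C).1 h1)
  refine ⟨κ⁻¹, fun p => φ (F.coeff (mon p)), fun p => ?_⟩
  rw [hκ p, inv_mul_cancel_left₀ hκ0]

end Pool.Agent.H861.KF
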