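import Mathlib
import Pool.Agent.H861.KF.Y

/-!
# Kummer coverings over `k(t)`: few points or constant
-/

set_option autoImplicit false

open MvPolynomial

namespace Pool.Agent.H861.KF

/-- the points over `K` of the affine curve `F (x ^ m, y ^ n) = 0` -/
def points {K : Type} [Field K] (m n : ℕ) (F : MvPolynomial (Fin 2) K) : Set (K × K) :=
  {P | eval ![P.1 ^ m, P.2 ^ n] F = 0}

/-- the values of `(x ^ m, y ^ n)` at the points over `K` -/
def values {K : Type} [Field K] (m n : ℕ) (F : MvPolynomial (Fin 2) K) : Set (K × K) :=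
  (fun P => (P.1 ^ m, P.2 ^ n)) '' points m n F

/-- The substitution `x ↦ x₀ x`, `y ↦ y₀ y` transforms the curve `F (x ^ m, y ^ n) = 0` into a
curve `F₀ (x ^ m, y ^ n) = 0` defined over `k`, and all points over `K` come from points over `k`
of this curve. -/
def IsConstant (k : Type) {K : Type} [Field k] [Field K] [Algebra k K] (m n : ℕ)
    (F : MvPolynomial (Fin 2) K) : Prop :=
  ∃ (x₀ y₀ u : K) (F₀ : MvPolynomial (Fin 2) k), x₀ ≠ 0 ∧ y₀ ≠ 0 ∧ u ≠ 0 ∧
    aeval ![C (x₀ ^ m) * X 0, C (y₀ ^ n) * X 1] F = C u * map (algebraMap k K) F₀ ∧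
    points m n F = (fun Q : k × k => (algebraMap k K Q.1 * x₀, algebraMap k K Q.2 * y₀)) ''
      points m n F₀

section

variable {k K : Type} [Field k] [Field K] [Algebra k K]

theorem eval_map_pair (F₀ : MvPolynomial (Fin 2) k) (a b : k) :
    eval ![algebraMap k K a, algebraMap k K b] (map (algebraMap k K) F₀) =
      algebraMap k K (eval ![a, b] F₀) := by
  have h1 := eval₂_comp_left (algebraMap k K) (RingHom.id k) ![a, b] F₀
  rw [eval_map]
  refine Eq.trans ?_ h1.symm
  congr 1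
  funext i
  fin_cases i <;> rfl

theorem mem_points_iff {m n : ℕ} {F : MvPolynomial (Fin 2) K} {x₀ y₀ u : K}
    {F₀ : MvPolynomial (Fin 2) k} (hu : u ≠ 0)
    (h : aeval ![C (x₀ ^ m) * X 0, C (y₀ ^ n) * X 1] F = C u * map (algebraMap k K) F₀) (a b : k) :
    (algebraMap k K a * x₀, algebraMap k K b * y₀) ∈ points m n F ↔ (a, b) ∈ points m n F₀ := by
  have h1 : eval ![(algebraMap k K a * x₀) ^ m, (algebraMap k K b * y₀) ^ n] F =
      u * algebraMap k K (eval ![a ^ m, b ^ n] F₀) := by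
    rw [← eval_map_pair, mul_comm (algebraMap k K a), mul_comm (algebraMap k K b), mul_pow, mul_pow,
      ← scale_eval, map_pow, map_pow]
    unfold scale
    rw [h, map_mul, eval_C]
  show eval ![(algebraMap k K a * x₀) ^ m, (algebraMap k K b * y₀) ^ n] F = 0 ↔
    eval ![a ^ m, b ^ n] F₀ = 0
  rw [h1, mul_eq_zero, map_eq_zero]
  exact ⟨fun h => h.resolve_left hu, Or.inr⟩

theorem IsConstant.mk' {m n : ℕ} {F : MvPolynomial (Fin 2) K} {x₀ y₀ u : K}
    {F₀ : MvPolynomial (Fin 2) k} (hx : x₀ ≠ 0) (hy : y₀ ≠ 0) (hu : u ≠ 0)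
    (h : aeval ![C (x₀ ^ m) * X 0, C (y₀ ^ n) * X 1] F = C u * map (algebraMap k K) F₀)
    (hP : ∀ P ∈ points m n F, ∃ a b : k, P = (algebraMap k K a * x₀, algebraMap k K b * y₀)) :
    IsConstant k m n F := by
  refine ⟨x₀, y₀, u, F₀, hx, hy, hu, h, Set.Subset.antisymm ?_ ?_⟩
  · intro P hPm
    obtain ⟨a, b, rfl⟩ := hP P hPm
    exact ⟨(a, b), (mem_points_iff hu h a b).1 hPm, rfl⟩
  · rintro _ ⟨⟨a, b⟩, hab, rfl⟩
    exact (mem_points_iff hu h a b).2 hab

end

section

variable {L : Type} [Field L] {e : ℕ}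

/-- few points on the axes -/
theorem few_axis {F : MvPolynomial (Fin 2) L} (hF : Irreducible F) (hFe : F.totalDegree = e)
    (h3 : 3 ≤ F.support.card) (i : Fin 2) (T : Finset (Fin 2 → L))
    (hT : ∀ P ∈ T, P i = 0 ∧ eval P F = 0) : T.card ≤ e ^ 2 := by
  classical
  by_contra hcon
  push Not at hcon
  have he : 1 ≤ e := by
    by_contra h0
    have h0 : e = 0 := by omega
    rw [h0, totalDegree_eq_zero_iff_eq_C] at hFe
    have h1 : F.support ⊆ {0} := by
      rw [hFe]
      intro s hs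
      rw [mem_support_iff, coeff_C] at hs
      rw [Finset.mem_singleton]
      by_contra h2
      exact hs (if_neg (Ne.symm h2))
    have := Finset.card_le_card h1
    rw [Finset.card_singleton] at this
    omega
  obtain ⟨κ, hκ⟩ := smul_of_zeros (G := X i) hF hFe (by rw [totalDegree_X]; exact he) T
    (fun z hz => ⟨(hT z hz).2, by rw [eval_X]; exact (hT z hz).1⟩) hcon
  have hκ0 : κ ≠ 0 := by
    rintro rfl
    rw [map_zero, zero_mul] at hκ
    exact X_ne_zero i hκ
  have h1 : F.support ⊆ {Finsupp.single i 1} := by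
    intro s hs
    rw [mem_support_iff] at hs
    rw [Finset.mem_singleton]
    by_contra h2
    have h4 := congrArg (coeff s) hκ
    rw [coeff_C_mul, coeff_X, if_neg (Ne.symm h2)] at h4
    exact mul_ne_zero hκ0 hs h4.symm
  have := Finset.card_le_card h1
  rw [Finset.card_singleton] at this
  omega

theorem encard_le_of_finset {α : Type} {Z : Set α} {B : ℕ}
    (h : ∀ T : Finset α, (T : Set α) ⊆ Z → T.card ≤ B) : Z.encard ≤ B := by
  classical
  by_contra hcon
  push Not at hcon
  obtain ⟨t, ht, htc⟩ := Set.exists_subset_encard_eq (s := Z) (k := ((B + 1 : ℕ) : ℕ∞)) (by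
    have := Order.add_one_le_of_lt hcon
    exact_mod_cast this)
  have hfin : t.Finite := Set.finite_of_encard_eq_coe htc
  have h1 := h hfin.toFinset (by rwa [Set.Finite.coe_toFinset])
  have h2 : ((hfin.toFinset.card : ℕ) : ℕ∞) = ((B + 1 : ℕ) : ℕ∞) := by
    rw [← htc, ← Set.encard_coe_eq_coe_finsetCard, Set.Finite.coe_toFinset]
  have h3 : hfin.toFinset.card = B + 1 := by exact_mod_cast h2
  omega

theorem exists_finset_of_lt {α : Type} {Z : Set α} {B : ℕ} (h : (B : ℕ∞) < Z.encard) :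
    ∃ T : Finset α, (T : Set α) ⊆ Z ∧ B < T.card := by
  by_contra hcon
  push Not at hcon
  exact absurd (encard_le_of_finset hcon) (not_le.2 h)

end

/-- the points of a constant curve on the axes are algebraic over the constants -/
theorem axis_algebraic {k L : Type} [Field k] [Field L] [Algebra k L] [Infinite L] {e : ℕ}
    {G : MvPolynomial (Fin 2) k} (hF : Irreducible (map (algebraMap k L) G))
    (hFe : (map (algebraMap k L) G).totalDegree = e)
    (h3 : 3 ≤ (map (algebraMap k L) G).support.card) (i : Fin 2) {z : L}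
    (hz : eval (Function.update 0 i z) (map (algebraMap k L) G) = 0) : IsAlgebraic k z := by
  classical
  have h1 : ∀ w : L, Polynomial.aeval w (aeval (Function.update 0 i (Polynomial.X : Polynomial k)) G) =
      eval (Function.update 0 i w) (map (algebraMap k L) G) := by
    intro w
    rw [comp_aeval_apply, eval_map, aeval_def]
    congr 1
    funext j
    by_cases hj : j = i
    · subst hj
      simp
    · simp [Function.update_of_ne hj]
  refine ⟨aeval (Function.update 0 i (Polynomial.X : Polynomial k)) G, ?_, by rw [h1, hz]⟩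
  intro h0
  obtain ⟨T, hT⟩ := Infinite.exists_subset_card_eq L (e ^ 2 + 1)
  obtain ⟨j, hj⟩ : ∃ j : Fin 2, j ≠ i := ⟨1 - i, by fin_cases i <;> decide⟩
  have h2 := few_axis hF hFe h3 j (T.image fun w => Function.update 0 i w) (by
    intro P hP
    obtain ⟨w, _, rfl⟩ := Finset.mem_image.1 hP
    refine ⟨by rw [Function.update_of_ne hj]; rfl, ?_⟩
    rw [← h1, h0, map_zero])
  rw [Finset.card_image_of_injective _ (Function.update_injective _ _), hT] at h2
  omega

variable {k : Type} [Field k] [CharZero k] {e : ℕ}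

/-- many points: the curve is constant -/
theorem const_case {F : MvPolynomial (Fin 2) (RatFunc k)} (hF : Irreducible F)
    (hFe : F.totalDegree = e) (h3 : 3 ≤ F.support.card) {m n : ℕ} (hm : m ≠ 0) (hn : n ≠ 0)
    (hg : (Fintype.card (Ix e)).factorial * ((Fintype.card (Ix e)).factorial - 2) < Nat.gcd m n)
    (T : Finset (RatFunc k × RatFunc k))
    (hT : ∀ t ∈ T, ∃ x y, x ≠ 0 ∧ y ≠ 0 ∧ eval ![x ^ m, y ^ n] F = 0 ∧ t = (x ^ m, y ^ n))
    (hcard : 2 ^ Fintype.card (Ix e) * e ^ 2 < T.card) : IsConstant k m n F := by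
  classical
  choose! x y hx hy hxy ht using hT
  obtain ⟨t0, ht0⟩ : T.Nonempty := Finset.card_pos.1 (by omega)
  obtain ⟨x₀, hx₀⟩ : ∃ x₀, x₀ = x t0 := ⟨_, rfl⟩
  obtain ⟨y₀, hy₀⟩ : ∃ y₀, y₀ = y t0 := ⟨_, rfl⟩
  have hx₀0 : x₀ ≠ 0 := hx₀ ▸ hx t0 ht0
  have hy₀0 : y₀ ≠ 0 := hy₀ ▸ hy t0 ht0
  have hu : x₀ ^ m ≠ 0 := pow_ne_zero _ hx₀0
  have hv : y₀ ^ n ≠ 0 := pow_ne_zero _ hy₀0
  have hF' := scale_irreducible hu hv hF
  have hF'e : (scale (x₀ ^ m) (y₀ ^ n) F).totalDegree = e := (scale_degree hu hv F).trans hFe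
  have hF'3 : 3 ≤ (scale (x₀ ^ m) (y₀ ^ n) F).support.card := by rw [scale_support hu hv]; exact h3
  have hev : ∀ a b : RatFunc k, eval ![(a / x₀) ^ m, (b / y₀) ^ n] (scale (x₀ ^ m) (y₀ ^ n) F) =
      eval ![a ^ m, b ^ n] F := by
    intro a b
    rw [scale_eval, ← mul_pow, ← mul_pow, mul_div_cancel₀ _ hx₀0, mul_div_cancel₀ _ hy₀0]
  obtain ⟨u, c, huc⟩ := const_equation hF' hF'e hF'3 hg (J := {t // t ∈ T}) ⟨t0, ht0⟩
    (fun j => x j.1 / x₀) (fun j => y j.1 / y₀) (fun j => div_ne_zero (hx _ j.2) hx₀0)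
    (fun j => div_ne_zero (hy _ j.2) hy₀0) (by rw [hx₀]; exact div_self (hx t0 ht0))
    (by rw [hy₀]; exact div_self (hy t0 ht0))
    (fun j => by rw [hev]; exact hxy _ j.2) Finset.univ (by
      intro i _ j _ hij
      obtain ⟨h4, h5⟩ := Prod.mk.inj hij
      rw [div_pow, div_pow, div_left_inj' hu] at h4
      rw [div_pow, div_pow, div_left_inj' hv] at h5
      apply Subtype.ext
      rw [ht _ i.2, ht _ j.2, h4, h5]) (by
      rw [Finset.card_univ, Fintype.card_coe]
      exact hcard)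
  have hu0 : u ≠ 0 := by
    rintro rfl
    apply hF'.ne_zero
    rw [eq_pol (e := e) hF'e.le]
    unfold pol
    simp [huc]
  have hmap : scale (x₀ ^ m) (y₀ ^ n) F = C u * map (algebraMap k (RatFunc k)) (pol c) := by
    rw [eq_pol (e := e) hF'e.le]
    unfold pol
    rw [map_sum, Finset.mul_sum]
    refine Finset.sum_congr rfl fun p _ => ?_
    simp only [huc]
    rw [map_monomial, C_mul_monomial, RatFunc.algebraMap_eq_C]
  have halg : ∀ a : RatFunc k, IsAlgebraic k a → ∃ c, a = RatFunc.C c := by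
    intro a ha
    by_contra hcon
    exact RatFunc.transcendental_of_ne_C _ hcon ha
  have hirr : Irreducible (map (algebraMap k (RatFunc k)) (pol c)) ∧
      (map (algebraMap k (RatFunc k)) (pol c)).totalDegree = e ∧
      3 ≤ (map (algebraMap k (RatFunc k)) (pol c)).support.card := by
    have hCu : IsUnit (C u : MvPolynomial (Fin 2) (RatFunc k)) := (IsUnit.mk0 u hu0).map C
    refine ⟨?_, ?_, ?_⟩
    · rw [hmap, irreducible_isUnit_mul hCu] at hF'
      exact hF'
    · have h1 : (C u * map (algebraMap k (RatFunc k)) (pol c)).support =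
          (map (algebraMap k (RatFunc k)) (pol c)).support := by
        rw [C_mul', support_smul_eq hu0]
      unfold totalDegree at hF'e ⊢
      rw [hmap, h1] at hF'e
      exact hF'e
    · rw [hmap, C_mul', support_smul_eq hu0] at hF'3
      exact hF'3
  obtain ⟨hirr1, hirr2, hirr3⟩ := hirr
  refine IsConstant.mk' hx₀0 hy₀0 hu0 hmap ?_
  rintro ⟨a, b⟩ hab
  have hab' : eval ![a ^ m, b ^ n] F = 0 := hab
  rw [← hev] at hab'
  have hab0 : eval ![(a / x₀) ^ m, (b / y₀) ^ n] (map (algebraMap k (RatFunc k)) (pol c)) = 0 := by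
    rw [hmap, map_mul, eval_C] at hab'
    exact (mul_eq_zero.1 hab').resolve_left hu0
  have hpow0 : ∀ (i : Fin 2) (z : RatFunc k) (N : ℕ), N ≠ 0 →
      eval (Function.update 0 i (z ^ N)) (map (algebraMap k (RatFunc k)) (pol c)) = 0 →
      ∃ α, z = RatFunc.C α := by
    intro i z N hN hz
    exact halg z ((axis_algebraic hirr1 hirr2 hirr3 i hz).of_pow (Nat.pos_of_ne_zero hN))
  have key : (∃ α, a / x₀ = RatFunc.C α) ∧ ∃ β, b / y₀ = RatFunc.C β := by
    by_cases ha : a / x₀ = 0
    · refine ⟨⟨0, by rw [ha, map_zero]⟩, ?_⟩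
      refine hpow0 1 _ n hn ?_
      rw [ha, zero_pow hm] at hab0
      rw [← hab0]
      congr 1
      congr 1
      funext i
      fin_cases i <;> simp
    · by_cases hb : b / y₀ = 0
      · refine ⟨?_, ⟨0, by rw [hb, map_zero]⟩⟩
        refine hpow0 0 _ m hm ?_
        rw [hb, zero_pow hn] at hab0
        rw [← hab0]
        congr 1
        congr 1
        funext i
        fin_cases i <;> simp
      · exact const_of hF' hF'e hF'3 hm hn hg u c huc ha hb hab'
  obtain ⟨⟨α, hα⟩, β, hβ⟩ := key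
  refine ⟨α, β, ?_⟩
  rw [RatFunc.algebraMap_eq_C, ← hα, ← hβ, div_mul_cancel₀ _ hx₀0, div_mul_cancel₀ _ hy₀0]

end Pool.Agent.H861.KF
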