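import Mathlib
import Pool.Agent.H861.KF.X

/-!
# Kummer coverings over `k(t₁, …, t_r)`: few points or constant
-/

set_option autoImplicit false

open MvPolynomial

namespace Pool.Agent.H861.KF

/-- the bound for the number of values -/
def bound (D : ℕ) : ℕ := (2 ^ ((D + 1) * (D + 2) / 2) + 2) * D ^ 2

/-- The property we want to prove for `K = k(t₁, …, t_r)`. -/
def Good (k K : Type) [Field k] [Field K] [Algebra k K] : Prop :=
  (∀ x : K, IsAlgebraic k x → ∃ c, x = algebraMap k K c) ∧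
  ∀ (D m n : ℕ) (F : MvPolynomial (Fin 2) K), m ≠ 0 → n ≠ 0 →
    ((D + 1) * (D + 2) / 2).factorial ^ 2 ≤ Nat.gcd m n → Irreducible F → F.totalDegree ≤ D →
    3 ≤ F.support.card → IsConstant k m n F ∨ (values m n F).encard ≤ bound D

theorem pair_inj {α : Type} : Function.Injective fun P : α × α => (![P.1, P.2] : Fin 2 → α) := by
  intro P Q h
  exact Prod.ext (congrFun h 0) (congrFun h 1)

theorem good_ratFunc (k : Type) [Field k] [CharZero k] : Good k (RatFunc k) := by
  classical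
  refine ⟨fun x hx => ?_, ?_⟩
  · by_contra hcon
    rw [RatFunc.algebraMap_eq_C] at hcon
    exact RatFunc.transcendental_of_ne_C _ hcon hx
  intro D m n F hm hn hg hF hD h3
  by_cases hconst : IsConstant k m n F
  · exact Or.inl hconst
  right
  obtain ⟨e, he⟩ : ∃ e, F.totalDegree = e := ⟨_, rfl⟩
  have heD : e ≤ D := he ▸ hD
  have hcardIx : Fintype.card (Ix e) ≤ (D + 1) * (D + 2) / 2 :=
    (card_Ix' e).trans (Nat.div_le_div_right (Nat.mul_le_mul (by omega) (by omega)))
  have hg' : (Fintype.card (Ix e)).factorial * ((Fintype.card (Ix e)).factorial - 2) <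
      Nat.gcd m n := by
    refine lt_of_lt_of_le ?_ hg
    have h1 : (Fintype.card (Ix e)).factorial ≤ ((D + 1) * (D + 2) / 2).factorial :=
      Nat.factorial_le hcardIx
    have h2 : 0 < (Fintype.card (Ix e)).factorial := Nat.factorial_pos _
    rw [sq]
    calc (Fintype.card (Ix e)).factorial * ((Fintype.card (Ix e)).factorial - 2)
        < (Fintype.card (Ix e)).factorial * (Fintype.card (Ix e)).factorial :=
          Nat.mul_lt_mul_of_pos_left (by omega) h2
      _ ≤ _ := Nat.mul_le_mul h1 h1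
  refine encard_le_of_finset fun T hT => ?_
  have hTe : ∀ t ∈ T, eval ![t.1, t.2] F = 0 := by
    intro t ht
    obtain ⟨P, hP, rfl⟩ := hT ht
    exact hP
  have haxis : ∀ i : Fin 2, (T.filter fun t => (![t.1, t.2] : Fin 2 → RatFunc k) i = 0).card ≤ e ^ 2 := by
    intro i
    have h1 := few_axis hF he h3 i ((T.filter fun t => (![t.1, t.2] : Fin 2 → RatFunc k) i = 0).image
      fun P => (![P.1, P.2] : Fin 2 → RatFunc k)) (by
      intro P hP
      obtain ⟨t, ht, rfl⟩ := Finset.mem_image.1 hP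
      obtain ⟨h1, h2⟩ := Finset.mem_filter.1 ht
      exact ⟨h2, hTe t h1⟩)
    rwa [Finset.card_image_of_injective _ pair_inj] at h1
  have hmain : (T.filter fun t => t.1 ≠ 0 ∧ t.2 ≠ 0).card ≤ 2 ^ Fintype.card (Ix e) * e ^ 2 := by
    by_contra hcon
    push Not at hcon
    refine hconst (const_case hF he h3 hm hn hg' (T.filter fun t => t.1 ≠ 0 ∧ t.2 ≠ 0) ?_ hcon)
    intro t ht
    obtain ⟨h1, h2, h4⟩ := Finset.mem_filter.1 ht
    obtain ⟨P, hP, hPt⟩ := hT h1
    have hPt' : (P.1 ^ m, P.2 ^ n) = t := hPt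
    refine ⟨P.1, P.2, ?_, ?_, hP, hPt'.symm⟩
    · intro h0
      rw [← hPt', h0] at h2
      exact h2 (zero_pow hm)
    · intro h0
      rw [← hPt', h0] at h4
      exact h4 (zero_pow hn)
  have hcover : T ⊆ (T.filter fun t => t.1 ≠ 0 ∧ t.2 ≠ 0) ∪
      ((T.filter fun t => (![t.1, t.2] : Fin 2 → RatFunc k) 0 = 0) ∪
        (T.filter fun t => (![t.1, t.2] : Fin 2 → RatFunc k) 1 = 0)) := by
    intro t ht
    rw [Finset.mem_union, Finset.mem_union]
    by_cases h1 : t.1 = 0
    · exact Or.inr (Or.inl (Finset.mem_filter.2 ⟨ht, h1⟩))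
    · by_cases h2 : t.2 = 0
      · exact Or.inr (Or.inr (Finset.mem_filter.2 ⟨ht, h2⟩))
      · exact Or.inl (Finset.mem_filter.2 ⟨ht, h1, h2⟩)
  have h5 := (Finset.card_le_card hcover).trans ((Finset.card_union_le _ _).trans
    (Nat.add_le_add_left (Finset.card_union_le _ _) _))
  have h6 : 2 ^ Fintype.card (Ix e) * e ^ 2 + (e ^ 2 + e ^ 2) ≤ bound D := by
    unfold bound
    have h7 : e ^ 2 ≤ D ^ 2 := Nat.pow_le_pow_left heD 2
    have h8 : 2 ^ Fintype.card (Ix e) ≤ 2 ^ ((D + 1) * (D + 2) / 2) :=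
      Nat.pow_le_pow_right (by norm_num) hcardIx
    calc 2 ^ Fintype.card (Ix e) * e ^ 2 + (e ^ 2 + e ^ 2) = (2 ^ Fintype.card (Ix e) + 2) * e ^ 2 := by
          ring
      _ ≤ _ := Nat.mul_le_mul (by omega) h7
  have h9 := haxis 0
  have h10 := haxis 1
  omega

/-! ### Towers -/

theorem scale_iff {k K : Type} [Field k] [Field K] [Algebra k K] (a b u : K)
    (F : MvPolynomial (Fin 2) K) (F₀ : MvPolynomial (Fin 2) k) :
    aeval ![C a * X 0, C b * X 1] F = C u * map (algebraMap k K) F₀ ↔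
      ∀ s, a ^ s 0 * b ^ s 1 * F.coeff s = u * algebraMap k K (F₀.coeff s) := by
  constructor
  · intro h s
    rw [← scale_coeff]
    unfold scale
    rw [h, coeff_C_mul, coeff_map]
  · intro h
    ext s
    rw [coeff_C_mul, coeff_map, ← h s, ← scale_coeff]
    rfl

theorem irreducible_of_map {k K : Type} [Field k] [Field K] [Algebra k K]
    {F : MvPolynomial (Fin 2) k} (h : Irreducible (map (algebraMap k K) F)) : Irreducible F := by
  have : IsLocalHom (map (algebraMap k K) : MvPolynomial (Fin 2) k →+* MvPolynomial (Fin 2) K) := by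
    refine ⟨fun G hG => ?_⟩
    rw [isUnit_iff_totalDegree_of_isReduced] at hG ⊢
    obtain ⟨h1, h2⟩ := hG
    have hinj := (algebraMap k K).injective
    refine ⟨?_, ?_⟩
    · rw [coeff_map, isUnit_iff_ne_zero, map_ne_zero] at h1
      exact isUnit_iff_ne_zero.2 h1
    · unfold totalDegree at h2 ⊢
      rwa [support_map_of_injective _ hinj] at h2
  exact h.of_map

theorem good_of_bijective {k K : Type} [Field k] [Field K] [Algebra k K]
    (h : Function.Bijective (algebraMap k K)) : Good k K := by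
  refine ⟨fun x _ => ?_, ?_⟩
  · obtain ⟨c, hc⟩ := h.2 x
    exact ⟨c, hc.symm⟩
  intro D m n F _ _ _ _ _ _
  left
  obtain ⟨e, he⟩ : ∃ e : k ≃+* K, ∀ c, e c = algebraMap k K c :=
    ⟨RingEquiv.ofBijective _ h, fun _ => rfl⟩
  refine IsConstant.mk' (x₀ := 1) (y₀ := 1) (u := 1) (F₀ := map (e.symm : K →+* k) F) one_ne_zero
    one_ne_zero one_ne_zero ?_ ?_
  · rw [scale_iff]
    intro s
    rw [one_pow, one_pow, one_pow, one_pow, one_mul, one_mul, one_mul, coeff_map, ← he]
    exact (e.apply_symm_apply _).symm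
  · rintro ⟨a, b⟩ _
    obtain ⟨a', rfl⟩ := h.2 a
    obtain ⟨b', rfl⟩ := h.2 b
    exact ⟨a', b', by rw [mul_one, mul_one]⟩

section tower

variable {k K₁ K₂ : Type} [Field k] [Field K₁] [Field K₂] [Algebra k K₁] [Algebra K₁ K₂]
  [Algebra k K₂] [IsScalarTower k K₁ K₂]

theorem good_trans (h1 : Good k K₁) (h2 : Good K₁ K₂) : Good k K₂ := by
  classical
  refine ⟨fun x hx => ?_, ?_⟩
  · obtain ⟨y, rfl⟩ := h2.1 x (hx.tower_top K₁)
    rw [isAlgebraic_algebraMap_iff (algebraMap K₁ K₂).injective] at hx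
    obtain ⟨z, rfl⟩ := h1.1 y hx
    exact ⟨z, (IsScalarTower.algebraMap_apply k K₁ K₂ z).symm⟩
  intro D m n F hm hn hg hF hD h3
  rcases h2.2 D m n F hm hn hg hF hD h3 with hc | hc
  swap
  · exact Or.inr hc
  obtain ⟨x₀, y₀, u, F₁, hx₀, hy₀, hu, hmap, hpts⟩ := hc
  have hu' : x₀ ^ m ≠ 0 := pow_ne_zero _ hx₀
  have hv' : y₀ ^ n ≠ 0 := pow_ne_zero _ hy₀
  have hmap' : scale (x₀ ^ m) (y₀ ^ n) F = C u * map (algebraMap K₁ K₂) F₁ := hmap
  have hF' := scale_irreducible hu' hv' hF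
  have hCu : IsUnit (C u : MvPolynomial (Fin 2) K₂) := (IsUnit.mk0 u hu).map C
  have hinj : Function.Injective (algebraMap K₁ K₂) := (algebraMap K₁ K₂).injective
  have hF1 : Irreducible F₁ := by
    rw [hmap', irreducible_isUnit_mul hCu] at hF'
    exact irreducible_of_map hF'
  have hsupp : F₁.support = F.support := by
    rw [← scale_support hu' hv' F, hmap', C_mul', support_smul_eq hu, support_map_of_injective _ hinj]
  have hD1 : F₁.totalDegree ≤ D := by
    refine le_trans (le_of_eq ?_) hD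
    unfold totalDegree
    rw [hsupp]
  rcases h1.2 D m n F₁ hm hn hg hF1 hD1 (by rw [hsupp]; exact h3) with hc | hc
  · left
    obtain ⟨x₁, y₁, v, F₂, hx₁, hy₁, hv, hmap1, hpts1⟩ := hc
    refine IsConstant.mk' (x₀ := x₀ * algebraMap K₁ K₂ x₁) (y₀ := y₀ * algebraMap K₁ K₂ y₁)
      (u := u * algebraMap K₁ K₂ v) (F₀ := F₂) (mul_ne_zero hx₀ ((map_ne_zero _).2 hx₁))
      (mul_ne_zero hy₀ ((map_ne_zero _).2 hy₁)) (mul_ne_zero hu ((map_ne_zero _).2 hv)) ?_ ?_
    · rw [scale_iff] at hmap hmap1 ⊢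
      intro s
      have e1 := hmap s
      have e2 := congrArg (algebraMap K₁ K₂) (hmap1 s)
      rw [map_mul, map_mul, map_mul, map_pow, map_pow, map_pow, map_pow,
        ← IsScalarTower.algebraMap_apply] at e2
      calc ((x₀ * algebraMap K₁ K₂ x₁) ^ m) ^ s 0 * ((y₀ * algebraMap K₁ K₂ y₁) ^ n) ^ s 1 * coeff s F
          = (algebraMap K₁ K₂ x₁ ^ m) ^ s 0 * (algebraMap K₁ K₂ y₁ ^ n) ^ s 1 *
            ((x₀ ^ m) ^ s 0 * (y₀ ^ n) ^ s 1 * coeff s F) := by ring
        _ = u * ((algebraMap K₁ K₂ x₁ ^ m) ^ s 0 * (algebraMap K₁ K₂ y₁ ^ n) ^ s 1 *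
            algebraMap K₁ K₂ (coeff s F₁)) := by rw [e1]; ring
        _ = _ := by rw [e2]; ring
    · intro P hP
      rw [hpts] at hP
      obtain ⟨Q, hQ, rfl⟩ := hP
      rw [hpts1] at hQ
      obtain ⟨R, hR, rfl⟩ := hQ
      refine ⟨R.1, R.2, ?_⟩
      simp only [map_mul, ← IsScalarTower.algebraMap_apply]
      refine Prod.ext ?_ ?_
      · show _ = _
        ring
      · show _ = _
        ring
  · right
    refine le_trans ?_ hc
    have h4 : values m n F ⊆ (fun Q : K₁ × K₁ => (algebraMap K₁ K₂ Q.1 * x₀ ^ m,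
        algebraMap K₁ K₂ Q.2 * y₀ ^ n)) '' values m n F₁ := by
      rintro _ ⟨P, hP, rfl⟩
      rw [hpts] at hP
      obtain ⟨Q, hQ, rfl⟩ := hP
      refine ⟨(Q.1 ^ m, Q.2 ^ n), ⟨Q, hQ, rfl⟩, ?_⟩
      simp only [map_pow, mul_pow]
    exact (Set.encard_le_encard h4).trans (Set.encard_image_le _ _)

end tower

theorem good_equiv {k K K' : Type} [Field k] [Field K] [Field K'] [Algebra k K] [Algebra k K']
    (e : K' ≃ₐ[k] K) (h : Good k K') : Good k K := by
  letI : Algebra K' K := (e : K' →+* K).toAlgebra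
  haveI : IsScalarTower k K' K := IsScalarTower.of_algebraMap_eq fun c => (e.commutes c).symm
  exact good_trans h (good_of_bijective e.bijective)

end Pool.Agent.H861.KF
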