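import Mathlib
import Pool.Agent.H861.KF.V

/-!
# Kummer coverings over `k(t₁, …, t_r)`: the fields and the number of points
-/

set_option autoImplicit false

open MvPolynomial

namespace Pool.Agent.H861.KF

theorem frac_abs {A K₁ R : Type} [CommRing A] [IsDomain A] [Field K₁] [Algebra A K₁]
    [IsFractionRing A K₁] [CommRing R] [IsDomain R] (ε : R ≃+* Polynomial A) :
    ∃ e : FractionRing R ≃+* RatFunc K₁, ∀ a : A,
      e (algebraMap R (FractionRing R) (ε.symm (Polynomial.C a))) =
        RatFunc.C (algebraMap A K₁ a) := by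
  classical
  obtain ⟨ρ, hρ⟩ : ∃ ρ : R →+* RatFunc K₁, ∀ x, ρ x = algebraMap (Polynomial K₁) (RatFunc K₁)
      (Polynomial.map (algebraMap A K₁) (ε x)) :=
    ⟨((algebraMap (Polynomial K₁) (RatFunc K₁)).comp
      (Polynomial.mapRingHom (algebraMap A K₁))).comp (ε : R →+* Polynomial A), fun _ => rfl⟩
  have hρinj : Function.Injective ρ := by
    intro x y hxy
    rw [hρ, hρ] at hxy
    exact ε.injective (Polynomial.map_injective _ (IsFractionRing.injective A K₁)
      (RatFunc.algebraMap_injective K₁ hxy))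
  let _ : Algebra R (RatFunc K₁) := ρ.toAlgebra
  have hal : ∀ x, algebraMap R (RatFunc K₁) x = ρ x := fun _ => rfl
  have : FaithfulSMul R (RatFunc K₁) := (faithfulSMul_iff_algebraMap_injective _ _).2 hρinj
  have key : ∀ p : Polynomial K₁, ∃ (x : R) (b : A), b ≠ 0 ∧
      ρ x = RatFunc.C (algebraMap A K₁ b) * algebraMap (Polynomial K₁) (RatFunc K₁) p := by
    intro p
    obtain ⟨b, hb, hbp⟩ := IsLocalization.integerNormalization_spec (nonZeroDivisors A) p
    refine ⟨ε.symm (IsLocalization.integerNormalization (nonZeroDivisors A) p), b,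
      nonZeroDivisors.ne_zero hb, ?_⟩
    rw [hρ, RingEquiv.apply_symm_apply, hbp, ← RatFunc.algebraMap_C, ← map_mul]
    congr 1
    rw [← IsScalarTower.algebraMap_smul K₁ b p, Polynomial.smul_eq_C_mul]
  have hb0 : ∀ b : A, b ≠ 0 → (RatFunc.C (algebraMap A K₁ b) : RatFunc K₁) ≠ 0 := by
    intro b hb
    rw [Ne, map_eq_zero]
    exact fun h => hb ((IsFractionRing.injective A K₁) (by rw [h, map_zero]))
  have : IsFractionRing R (RatFunc K₁) := by
    refine IsFractionRing.of_field R (RatFunc K₁) fun z => ?_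
    obtain ⟨x, b, hb, hx⟩ := key z.num
    obtain ⟨y, c, hc, hy⟩ := key z.denom
    refine ⟨x * ε.symm (Polynomial.C c), y * ε.symm (Polynomial.C b), ?_⟩
    have h1 : ∀ a : A, ρ (ε.symm (Polynomial.C a)) = RatFunc.C (algebraMap A K₁ a) := by
      intro a
      rw [hρ, RingEquiv.apply_symm_apply, Polynomial.map_C, RatFunc.algebraMap_C]
    rw [hal, hal, map_mul, map_mul, h1, h1, hx, hy]
    have h2 := hb0 b hb
    have h3 := hb0 c hc
    have h4 : algebraMap (Polynomial K₁) (RatFunc K₁) z.denom ≠ 0 := by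
      rw [Ne, map_eq_zero_iff _ (RatFunc.algebraMap_injective K₁)]
      exact RatFunc.denom_ne_zero z
    conv_lhs => rw [← RatFunc.num_div_denom z]
    field_simp
  refine ⟨(FractionRing.algEquiv R (RatFunc K₁)).toRingEquiv, fun a => ?_⟩
  have h1 : FractionRing.algEquiv R (RatFunc K₁) (algebraMap R (FractionRing R)
      (ε.symm (Polynomial.C a))) = algebraMap R (RatFunc K₁) (ε.symm (Polynomial.C a)) :=
    AlgEquiv.commutes _ _
  refine h1.trans ?_
  rw [hal, hρ, RingEquiv.apply_symm_apply, Polynomial.map_C, RatFunc.algebraMap_C]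

theorem frac_succ (k : Type) [Field k] (r : ℕ) :
    Nonempty (RatFunc (FractionRing (MvPolynomial (Fin r) k)) ≃ₐ[k]
      FractionRing (MvPolynomial (Fin (r + 1)) k)) := by
  obtain ⟨e, he⟩ := frac_abs (A := MvPolynomial (Fin r) k)
    (K₁ := FractionRing (MvPolynomial (Fin r) k)) (R := MvPolynomial (Fin (r + 1)) k)
    (finSuccEquiv k r : MvPolynomial (Fin (r + 1)) k ≃+* Polynomial (MvPolynomial (Fin r) k))
  refine ⟨AlgEquiv.ofRingEquiv (f := e.symm) fun c => ?_⟩
  have h1 := he (C c)
  have h2 : (finSuccEquiv k r : MvPolynomial (Fin (r + 1)) k ≃+* Polynomial (MvPolynomial (Fin r) k)).symm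
      (Polynomial.C (C c)) = C c := RingHom.congr_fun (finSuccEquiv_comp_C_eq_C r) c
  rw [h2] at h1
  rw [RingEquiv.symm_apply_eq]
  have h3 : algebraMap k (FractionRing (MvPolynomial (Fin (r + 1)) k)) c =
      algebraMap (MvPolynomial (Fin (r + 1)) k) (FractionRing (MvPolynomial (Fin (r + 1)) k)) (C c) :=
    IsScalarTower.algebraMap_apply k (MvPolynomial (Fin (r + 1)) k)
      (FractionRing (MvPolynomial (Fin (r + 1)) k)) c
  have h4 : algebraMap k (FractionRing (MvPolynomial (Fin r) k)) c =
      algebraMap (MvPolynomial (Fin r) k) (FractionRing (MvPolynomial (Fin r) k)) (C c) :=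
    IsScalarTower.algebraMap_apply k (MvPolynomial (Fin r) k)
      (FractionRing (MvPolynomial (Fin r) k)) c
  rw [h3, h1, ← h4, ← RatFunc.algebraMap_eq_C]
  exact IsScalarTower.algebraMap_apply k (FractionRing (MvPolynomial (Fin r) k)) _ c

theorem good_frac (k : Type) [Field k] [CharZero k] (r : ℕ) :
    Good k (FractionRing (MvPolynomial (Fin r) k)) := by
  induction r with
  | zero =>
    refine good_of_bijective ⟨(algebraMap k _).injective, fun x => ?_⟩
    obtain ⟨p, q, -, rfl⟩ := IsFractionRing.div_surjective (A := MvPolynomial (Fin 0) k) x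
    refine ⟨p.coeff 0 / q.coeff 0, ?_⟩
    have h1 : ∀ a : MvPolynomial (Fin 0) k,
        algebraMap k (FractionRing (MvPolynomial (Fin 0) k)) (a.coeff 0) =
          algebraMap (MvPolynomial (Fin 0) k) (FractionRing (MvPolynomial (Fin 0) k)) a := by
      intro a
      refine (IsScalarTower.algebraMap_apply k (MvPolynomial (Fin 0) k)
        (FractionRing (MvPolynomial (Fin 0) k)) (a.coeff 0)).trans ?_
      congr 1
      exact (eq_C_of_isEmpty a).symm
    rw [map_div₀, h1, h1]
  | succ r ih =>
    obtain ⟨e⟩ := frac_succ k r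
    have : CharZero (FractionRing (MvPolynomial (Fin r) k)) :=
      charZero_of_injective_algebraMap (algebraMap k _).injective
    exact good_equiv e (good_trans ih (good_ratFunc (FractionRing (MvPolynomial (Fin r) k))))

/-! ### The number of points -/

theorem points_le {k K : Type} [Field k] [Field K] [Algebra k K]
    (hK : ∀ x : K, IsAlgebraic k x → ∃ c, x = algebraMap k K c) {m n B : ℕ} (hm : m ≠ 0)
    (hn : n ≠ 0) (F : MvPolynomial (Fin 2) K) (hB : (values m n F).encard ≤ B) :
    (points m n F).encard ≤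
      ((B * (Nat.card (rootsOfUnity m k) * Nat.card (rootsOfUnity n k)) : ℕ) : ℕ∞) := by
  classical
  have : NeZero m := ⟨hm⟩
  have : NeZero n := ⟨hn⟩
  have : Fintype (rootsOfUnity m k) := Fintype.ofFinite _
  have : Fintype (rootsOfUnity n k) := Fintype.ofFinite _
  refine encard_le_of_finset fun T hT => ?_
  obtain ⟨f, hf⟩ : ∃ f : K × K → K × K, ∀ p, f p = (p.1 ^ m, p.2 ^ n) := ⟨_, fun _ => rfl⟩
  have himg : (T.image f).card ≤ B := by
    have h1 : ((T.image f : Finset (K × K)) : Set (K × K)) ⊆ values m n F := by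
      intro t ht
      rw [Finset.mem_coe, Finset.mem_image] at ht
      obtain ⟨P, hP, rfl⟩ := ht
      exact ⟨P, hT hP, (hf P).symm⟩
    have h2 := (Set.encard_le_encard h1).trans hB
    rw [Set.encard_coe_eq_coe_finsetCard] at h2
    exact_mod_cast h2
  have hroot : ∀ (N : ℕ), N ≠ 0 → ∀ x y : K, x ^ N = y ^ N →
      ∃ ζ : rootsOfUnity N k, x = algebraMap k K ((ζ : kˣ) : k) * y := by
    intro N hN x y hxy
    by_cases hy : y = 0
    · refine ⟨1, ?_⟩
      rw [hy, mul_zero]
      rw [hy, zero_pow hN] at hxy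
      exact pow_eq_zero_iff hN |>.1 hxy
    · have h1 : (x / y) ^ N = 1 := by rw [div_pow, hxy, div_self (pow_ne_zero _ hy)]
      obtain ⟨c, hc⟩ := hK (x / y) (IsAlgebraic.of_pow (Nat.pos_of_ne_zero hN) (by
        rw [h1]; exact isAlgebraic_one))
      have h2 : c ^ N = 1 := by
        apply (algebraMap k K).injective
        rw [map_pow, ← hc, h1, map_one]
      have hc0 : c ≠ 0 := by
        rintro rfl
        rw [zero_pow hN] at h2
        exact zero_ne_one h2
      refine ⟨⟨Units.mk0 c hc0, ?_⟩, ?_⟩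
      · rw [mem_rootsOfUnity]
        ext
        rw [Units.val_pow_eq_pow_val, Units.val_mk0, h2, Units.val_one]
      · show x = algebraMap k K c * y
        rw [← hc, div_mul_cancel₀ _ hy]
  have hfib : T.card ≤ (Nat.card (rootsOfUnity m k) * Nat.card (rootsOfUnity n k)) *
      (T.image f).card := by
    refine Finset.card_le_mul_card_image T _ fun b hb => ?_
    obtain ⟨q, _, rfl⟩ := Finset.mem_image.1 hb
    have h2 : T.filter (fun p => f p = f q) ⊆
        (Finset.univ : Finset (rootsOfUnity m k × rootsOfUnity n k)).image fun z =>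
          (algebraMap k K ((z.1 : kˣ) : k) * q.1, algebraMap k K ((z.2 : kˣ) : k) * q.2) := by
      intro p hp
      have h3 := (Finset.mem_filter.1 hp).2
      rw [hf, hf] at h3
      obtain ⟨h4, h5⟩ := Prod.mk.inj h3
      obtain ⟨ζ, hζ⟩ := hroot m hm _ _ h4
      obtain ⟨η, hη⟩ := hroot n hn _ _ h5
      exact Finset.mem_image.2 ⟨(ζ, η), Finset.mem_univ _, Prod.ext hζ.symm hη.symm⟩
    refine (Finset.card_le_card h2).trans (Finset.card_image_le.trans ?_)
    rw [Finset.card_univ, Fintype.card_prod, Nat.card_eq_fintype_card, Nat.card_eq_fintype_card]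
  calc T.card ≤ _ := hfib
    _ ≤ (Nat.card (rootsOfUnity m k) * Nat.card (rootsOfUnity n k)) * B :=
        Nat.mul_le_mul_left _ himg
    _ = _ := mul_comm _ _

/-- an ordered field has at most two roots of unity -/
theorem card_roots_le {k : Type} [Field k] [LinearOrder k] [IsStrictOrderedRing k] {m : ℕ}
    (hm : m ≠ 0) : Nat.card (rootsOfUnity m k) ≤ 2 := by
  classical
  have : NeZero m := ⟨hm⟩
  have : Fintype (rootsOfUnity m k) := Fintype.ofFinite _
  rw [Nat.card_eq_fintype_card, ← Finset.card_univ,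
    ← Finset.card_image_of_injective (Finset.univ : Finset (rootsOfUnity m k))
      (f := fun z : rootsOfUnity m k => ((z : kˣ) : k)) (fun a b h => Subtype.ext (Units.ext h))]
  refine (Finset.card_le_card (t := ({1, -1} : Finset k)) ?_).trans Finset.card_le_two
  intro z hz
  obtain ⟨ζ, _, rfl⟩ := Finset.mem_image.1 hz
  have h1 : ((ζ : kˣ) : k) ^ m = 1 := by
    have h2 := (mem_rootsOfUnity m (ζ : kˣ)).1 ζ.2
    have h3 := congrArg (fun u : kˣ => (u : k)) h2
    simpa using h3
  have h4 : |((ζ : kˣ) : k)| = 1 := by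
    have h5 : |((ζ : kˣ) : k)| ^ m = 1 := by rw [← abs_pow, h1, abs_one]
    exact (pow_eq_one_iff_of_nonneg (abs_nonneg _) hm).1 h5
  rcases eq_or_eq_neg_of_abs_eq h4 with h | h
  · rw [h]; simp
  · rw [h]; simp

end Pool.Agent.H861.KF
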